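import Pool.Agent.H92.PC.Cel
import Pool.Agent.H55.PC.Steep

/-!
# Plan C: ALPHA, the main case

`AMain C`: the hypotheses of `theta_alpha` are satisfied at one level of one family, if the target
is not the window `0`; `C` is the constant of `theta_alpha`. `ALPHAStmt` follows (`alpha_red`).
-/

set_option autoImplicit false

namespace Pool.PC

open Finset Real
open Pool.Agent.H49.Ent Pool.Agent.H32.Dense Pool.STK Pool.KA Pool.KSAT Pool.K2S Pool.LK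

variable {J : ℕ}

/-- The data for `theta_alpha`, at one level `B` of one family, for the target `msh J n t`. -/
structure AOut (C ε : ℝ) (F : Fam 2 J) (B : Bx F) (c : Nm) (n : ℕ) (h x : ℝ) (t : ℕ)
    (X qa qb x' : ℕ) (a : ℕ → F.Ω → ℝ) (Bd : Finset (ℕ × ℕ)) (Sb : Finset ℕ)
    (ρ et er e₀ p₁ : ℝ) : Prop where
  lev : Lev F F.p B.a (vpc c (cpx c x) h n J) 0 J a
  X0 : 0 < X
  X4 : 4 ≤ 2 ^ X
  Xe : (X : ℝ) ≤ ε * J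
  xX : x' ≤ X
  qa0 : B.q ≤ qa
  qb1 : (qb : ℝ) ≤ B.q + (x - 4 * h) * J
  qab : qa < qb
  qJ : X + qb ≤ J
  et0 : 0 < et
  et1 : et < 1
  er0 : 0 ≤ er
  e0 : 0 ≤ e₀
  p0 : 0 ≤ p₁
  p1 : p₁ ≤ 1
  bd : (Bd.card : ℝ) ≤ ρ * J * (qb - qa : ℕ)
  sb1 : Sb ⊆ Finset.range X
  sb2 : 2 * Sb.card ≤ X
  hS : ∀ w q, w ≤ J → qa ≤ q → q < qb → (w, q) ∉ Bd → w < msh J n t →
    InS F B.i0 (vpc c (cpx c x) h n J) (fun w => zv B.i0 (a w)) X e₀ w q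
  hR : ∀ w q, w ≤ J → qa ≤ q → q < qb → (w, q) ∉ Bd →
    InR F B.i0 (vpc c (cpx c x) h n J) (fun w => zv B.i0 (a w)) X er w q
  hT : ∀ w, w + qa ≤ J → w < msh J n t → w % X ∉ Sb →
    Pe (dbl F.p (slam F w)) (fun u => ∀ j, j ≠ B.i0 →
      |zv B.i0 B.a u.1 j - zv B.i0 B.a u.2 j| ≤ 2 / 2 ^ (vpc c (cpx c x) h n J w + x')) ≤ p₁
  bud : e₀ * J + (7 * Real.log 2 * X + C) / et * (2 * (ρ * J) / X + 1) +
    ((et + 2 * p₁) * Real.log 2 + 2 * ((er + C) / X)) * J ≤ ε * J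

/-- **(AMain)** The main case of ALPHA. -/
def AMain (C : ℝ) : Prop :=
  ∀ ε > 0, ∀ δ > 0, ∃ η > 0, ∀ K : ℕ, ∀ c : Nm, c.Ok δ → ∀ x > 0, x < c.n - c.q →
    ∃ n₀ : ℕ, 1 ≤ n₀ ∧ ∀ n : ℕ, 1 ≤ n → n₀ ∣ n → ∃ h₀ > 0, ∀ h, 0 < h → h ≤ h₀ → ∃ J₀ : ℕ,
    ∀ J ≥ J₀, ∀ (F : Fam 2 J) (B : ℕ → Bx F) (k : ℕ), F.Tr → Tim F K η h →
    (B k).Ok (fun _ => True) → Lvl F c n h B k → ∀ t : ℕ, 1 ≤ t → t ≤ n + 1 →
    (∀ i < t, c.rot (i / n) < cpx c x) →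
    ∃ (X qa qb x' : ℕ) (a : ℕ → F.Ω → ℝ) (Bd : Finset (ℕ × ℕ)) (Sb : Finset ℕ)
      (ρ et er e₀ p₁ : ℝ), AOut C ε F (B k) c n h x t X qa qb x' a Bd Sb ρ et er e₀ p₁

end Pool.PC
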