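import Pool.Agent.H15.PC.AlRed
import Pool.Agent.H92.PC.Main
import Pool.Agent.H40.PC.RowS

/-!
# Plan C: ALPHA from (S)

`alpha_amn : (∀ C, 0 ≤ C → AMn C) → ALPHAStmt`, `alpha_of : AllSStmt → ALPHAStmt`.
-/

set_option autoImplicit false

namespace Pool.PC

open Finset Real
open Pool.Agent.H49.Ent Pool.Agent.H32.Dense Pool.STK Pool.KA Pool.KSAT Pool.K2S Pool.LK

/-- **ALPHA from helper92's main theorem.** -/
theorem alpha_amn (hA : ∀ C : ℝ, 0 ≤ C → AMn C) : ALPHAStmt := by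
  obtain ⟨C, hC, key⟩ := theta_alpha (C₀ := 2) (by norm_num)
  intro ε hε δ hδ
  obtain ⟨η, hη, hA⟩ := hA C hC ε hε δ hδ
  refine ⟨η, hη, fun K c hc x hx => ?_⟩
  obtain ⟨n₀, hn₀, hA⟩ := hA K c hc x hx
  refine ⟨n₀, hn₀, fun n hn hd => ?_⟩
  obtain ⟨h, hh, hhx, J₀, hA⟩ := hA n hn hd
  refine ⟨h, hh, max J₀ (max n ⌈4 / x⌉₊), ?_⟩
  intro J hJ F B k hTr hTim hB hL t ht hti htt
  have hJ1 : J₀ ≤ J := (le_max_left _ _).trans hJ
  have hJn : n ≤ J := ((le_max_left _ _).trans (le_max_right _ _)).trans hJ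
  have hxJ : 4 ≤ x * J := by
    have h1 : ⌈4 / x⌉₊ ≤ J := ((le_max_right _ _).trans (le_max_right _ _)).trans hJ
    have h2 : 4 / x ≤ (J : ℝ) := (Nat.le_ceil _).trans (by exact_mod_cast h1)
    rw [div_le_iff₀ hx] at h2
    linarith
  rcases Nat.eq_zero_or_pos t with h0 | h0
  · subst h0
    exact alpha_zero hε.le hh.le (by linarith) (by linarith) hB hL (htt (Nat.zero_le n))
  · have hxc : x < c.n - c.q := by
      have h2 := hti 0 h0
      have h3 := hc.r0 (((0 : ℕ) : ℝ) / n)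
      linarith
    obtain ⟨X, qa, qb, x', a, Bd, Sb, ρ, et, er, e₀, p₁, b1, b2, b3, b4, b5, b6, b7, b8, b9, b10,
      b11, b12, b13, b14, b15, b16, b17, b18, b19, b20, b21, b22⟩ :=
      hA J hJ1 F B k hTim hB hL t h0 ht hti
    have b5' : 4 ≤ 2 ^ X := by
      have : (4 : ℝ) ≤ 2 ^ X := by linarith
      exact_mod_cast this
    exact alpha_main key hc hn hJn hh.le (by linarith) hxJ hxc hL htt
      (X := X) (qa := qa) (qb := qb) (x' := x') (a := a) (Bd := Bd) (Sb := Sb) (ρ := ρ)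
      (et := et) (er := er) (e₀ := e₀) (p₁ := p₁)
      ⟨b1, b2, b5', b3, b4, b6, b7, b8, by omega, b10, b11, b12, b13, b14, b15, b17, b18, b19,
        fun w q _ h2 h3 h4 h5 => b20 w q (Nat.zero_le w) h2 h3 h4 h5,
        fun w q _ h2 h3 h4 => b21 w q (Nat.zero_le w) h2 h3 h4,
        fun w h2 h3 h4 => b22 w (Nat.zero_le w) h2 h3 (by simpa using h4), b16⟩ ht

/-- **ALPHA from (S).** -/
theorem alpha_of (hS : AllSStmt) : ALPHAStmt := alpha_amn fun _ hC => amain hS rowS hC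

end Pool.PC
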