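import Pool.Agent.H15.PC.Fam
import Pool.Agent.H70.PC.Ends

/-!
# Plan C: the composition of the parts of the theorem for one family
-/

set_option autoImplicit false

namespace Pool.PC

open Finset Real
open Pool.Agent.H49.Ent Pool.Agent.H32.Dense Pool.STK Pool.KA Pool.KSAT Pool.K2S Pool.LK

variable {J : ℕ} {F : Fam 2 J}

theorem eq_oth15 {i i0 : Fin 2} (h : i ≠ i0) : i = oth i0 := by
  unfold oth
  fin_cases i <;> fin_cases i0 <;> simp_all

theorem oth_ne15 (i0 : Fin 2) : oth i0 ≠ i0 := by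
  unfold oth
  fin_cases i0 <;> simp

/-- **Closed frames on the grid.** -/
theorem cld_of_clo {B : Bx F} (hB : B.Ok (fun _ => True)) {w r l : ℕ} (hl : l ≤ r)
    (h : Clo F (fun _ => True) B.a w r) : ∃ z : F.Ω → Fin 2 → ℝ, Cld F B w l z := by
  classical
  obtain ⟨φ, hφ⟩ : ∃ φ : F.Ω → ℝ, φ = fun ω =>
      if hx : ∃ ω', 0 < F.p ω' ∧ slam F w ω' = slam F w ω then B.a hx.choose else 0 := ⟨_, rfl⟩
  have hφd : ∀ ω ω', slam F w ω = slam F w ω' → φ ω = φ ω' := by
    intro ω ω' e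
    rw [hφ]
    simp only [e]
  have hφ1 : ∀ ω, |φ ω| ≤ 1 := by
    intro ω
    rw [hφ]
    dsimp only
    split_ifs with hx
    · exact hB.sl _ ⟨hx.choose_spec.1, trivial⟩
    · simp
  have hφa : ∀ ω, 0 < F.p ω → |B.a ω - φ ω| ≤ 2 / 2 ^ r := by
    intro ω hω
    have hx : ∃ ω', 0 < F.p ω' ∧ slam F w ω' = slam F w ω := ⟨ω, hω, rfl⟩
    rw [hφ]
    dsimp only
    rw [dif_pos hx]
    exact h ω _ ⟨hω, trivial⟩ ⟨hx.choose_spec.1, trivial⟩ hx.choose_spec.2.symm
  obtain ⟨ψ, hψ⟩ : ∃ ψ : F.Ω → ℝ, ψ = fun ω => ((⌊(2 : ℝ) ^ l * φ ω⌋ : ℤ) : ℝ) / 2 ^ l :=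
    ⟨_, rfl⟩
  have h2 : (0 : ℝ) < 2 ^ l := by positivity
  refine ⟨fun ω i => if i = B.i0 then 0 else ψ ω, ?_, ?_, ?_, ?_, ?_⟩
  · intro ω ω' _ _ e
    funext i
    rw [hψ]
    simp only [hφd ω ω' e]
  · intro ω i
    split_ifs
    · exact ⟨0, by simp⟩
    · exact ⟨⌊(2 : ℝ) ^ l * φ ω⌋, by rw [hψ]⟩
  · intro ω
    simp
  · intro ω i
    split_ifs
    · simp
    · rw [hψ]
      dsimp only
      rw [abs_div, abs_of_pos h2, div_le_one h2, abs_le]
      have h3 := hφ1 ω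
      rw [abs_le] at h3
      constructor
      · have h4 : (-(2 ^ l : ℤ)) ≤ ⌊(2 : ℝ) ^ l * φ ω⌋ := by
          rw [Int.le_floor]
          push_cast
          nlinarith [h3.1]
        have h5 : ((-(2 ^ l : ℤ) : ℤ) : ℝ) ≤ (⌊(2 : ℝ) ^ l * φ ω⌋ : ℤ) := by exact_mod_cast h4
        push_cast at h5
        exact h5
      · refine (Int.floor_le _).trans ?_
        nlinarith [h3.2]
  · intro ω hω
    rw [if_neg (oth_ne15 B.i0), hψ]
    dsimp only
    have h3 := hφa ω hω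
    have h4 : (2 : ℝ) / 2 ^ r ≤ 2 / 2 ^ l :=
      div_le_div_of_nonneg_left (by norm_num) h2 (pow_le_pow_right₀ (by norm_num) hl)
    have h5 := Int.floor_le ((2 : ℝ) ^ l * φ ω)
    have h6 := Int.lt_floor_add_one ((2 : ℝ) ^ l * φ ω)
    have h7 : |φ ω - ((⌊(2 : ℝ) ^ l * φ ω⌋ : ℤ) : ℝ) / 2 ^ l| ≤ 1 / 2 ^ l := by
      have e : φ ω - ((⌊(2 : ℝ) ^ l * φ ω⌋ : ℤ) : ℝ) / 2 ^ l =
        ((2 : ℝ) ^ l * φ ω - (⌊(2 : ℝ) ^ l * φ ω⌋ : ℤ)) / 2 ^ l := by field_simp
      rw [e, abs_div, abs_of_pos h2]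
      refine div_le_div_of_nonneg_right ?_ h2.le
      rw [abs_le]
      constructor <;> linarith
    have h8 := abs_add_le (B.a ω - φ ω) (φ ω - ((⌊(2 : ℝ) ^ l * φ ω⌋ : ℤ) : ℝ) / 2 ^ l)
    have e : B.a ω - φ ω + (φ ω - ((⌊(2 : ℝ) ^ l * φ ω⌋ : ℤ) : ℝ) / 2 ^ l) =
      B.a ω - ((⌊(2 : ℝ) ^ l * φ ω⌋ : ℤ) : ℝ) / 2 ^ l := by ring
    rw [e] at h8
    have e2 : (4 : ℝ) / 2 ^ l = 2 / 2 ^ l + 1 / 2 ^ l + 1 / 2 ^ l := by ring
    have h9 : (0 : ℝ) ≤ 1 / 2 ^ l := by positivity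
    rw [e2]
    linarith

/-- Closed frames at larger windows. -/
theorem slam_mono {w w' : ℕ} (hw : w ≤ w') (hJ : w' ≤ J) {S : Type} {z : F.Ω → S}
    (h : Det F.p (slam F w) z) : Det F.p (slam F w') z := by
  intro ω ω' hω hω' e
  refine h ω ω' hω hω' ?_
  unfold slam at e ⊢
  simp only [Prod.mk.injEq] at e ⊢
  refine ⟨e.1, e.2.1, ?_⟩
  obtain ⟨K, rfl⟩ := Nat.exists_eq_add_of_le hw
  rw [Pool.KSAT.T1_div F hJ ω, Pool.KSAT.T1_div F hJ ω', e.2.2]

theorem Cld.mono {B : Bx F} {w w' l : ℕ} {z : F.Ω → Fin 2 → ℝ} (h : Cld F B w l z)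
    (hw : w ≤ w') (hJ : w' ≤ J) : Cld F B w' l z :=
  ⟨slam_mono hw hJ h.det, h.grid, h.z0, h.le1, h.near⟩

/-- **The start.** The label at the window `0` from the context at the window `w`. -/
theorem start15 {b : ℝ} (hb : 1 ≤ b) {B : Bx F} {w q l : ℕ} {z : F.Ω → Fin 2 → ℝ}
    (hz : Cld F B w l z) (hw : w ≤ J) (hq : q + l ≤ J) : ∃ L : Lbl F b,
    L.cost ≤ cNf F w q l B.i0 z + (2 * (J * Real.log 2) - cVol J w q l) +
      3 * (w * Real.log 2) + 2 * (2 * Real.log (4 * 2 + 3)) := by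
  obtain ⟨L, hL⟩ := ends_ctt F hb hw hq B.i0 z hz.le1
  refine ⟨L, hL.trans ?_⟩
  have h1 : cVol J w q l ≤ ((q + w : ℕ) + (q + l + w : ℕ)) * Real.log 2 := by
    unfold cVol
    have hl2 : 0 ≤ Real.log 2 := Real.log_nonneg (by norm_num)
    refine mul_le_mul_of_nonneg_right ?_ hl2
    have a1 : ((min (q + w) J : ℕ) : ℝ) ≤ ((q + w : ℕ) : ℝ) := by exact_mod_cast min_le_left _ _
    have a2 : ((min (q + l + w) J : ℕ) : ℝ) ≤ ((q + l + w : ℕ) : ℝ) := by
      exact_mod_cast min_le_left _ _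
    linarith
  push_cast at h1 ⊢
  unfold cNf nfo
  nlinarith

/-- **The end.** A closed context which is known from the exact point. -/
theorem end_pt {S : Type} {w : ℕ} (b : F.Ω → S) (hcl : Det F.p (slam F w) b)
    (hT : Det F.p b (F.T1 w)) : nfo F w b ≤ F.Vf + CH F.p b (pt F) := by
  have hp := F.isLaw.nonneg
  have h1 := inf_le hp b (fun ω => (F.X J ω, F.T ω)) (fun ω => (F.l ω, F.Z ω)) F.Z
    (fun ω ω' _ _ h => (Prod.ext_iff.mp h).2)
  rw [nfo_closed F.isLaw b hcl hT] at h1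
  have h2 : CH F.p (fun ω => (F.X J ω, F.T ω)) (fun ω => (F.l ω, F.Z ω)) =
      CH F.p F.T (fun ω => (F.l ω, F.Z ω)) := by
    refine CH_congr hp ?_ ?_ (fun _ _ _ _ h => h) (fun _ _ _ _ h => h)
    · intro ω ω' _ _ h
      exact (Prod.ext_iff.mp (Prod.ext_iff.mp h).1).2
    · intro ω ω' _ _ h
      have e1 : F.T ω = F.T ω' := (Prod.ext_iff.mp h).1
      have e2 : F.l ω = F.l ω' := (Prod.ext_iff.mp (Prod.ext_iff.mp h).2).1
      have e3 : F.u ω = F.u ω' := (Prod.ext_iff.mp e2).1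
      have e4 : F.d ω = F.d ω' := (Prod.ext_iff.mp e2).2
      refine Prod.ext ?_ e1
      show fl J (F.x ω) = fl J (F.x ω')
      have e5 : F.x ω = F.x ω' := by
        funext i
        show F.u ω i + F.t ω * F.d ω i = F.u ω' i + F.t ω' * F.d ω' i
        have e6 : F.t ω = F.t ω' := by
          unfold Fam.t
          rw [e1]
        rw [e3, e4, e6]
      rw [e5]
  have h3 : CH F.p b (fun ω => ((F.X J ω, F.T ω), F.Z ω)) = CH F.p b (pt F) := by
    refine CH_congr hp (fun _ _ _ _ h => (Prod.ext_iff.mp h).1)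
      (fun _ _ _ _ h => (Prod.ext_iff.mp h).1) ?_ ?_
    · intro ω ω' _ _ h
      simp only [Prod.mk.injEq] at h
      show (F.X J ω, F.W ω) = (F.X J ω', F.W ω')
      exact Prod.ext h.1.1 (Prod.ext h.1.2 h.2)
    · intro ω ω' _ _ h
      have e1 : F.X J ω = F.X J ω' := (Prod.ext_iff.mp h).1
      have e2 : F.W ω = F.W ω' := (Prod.ext_iff.mp h).2
      exact Prod.ext (Prod.ext e1 (Prod.ext_iff.mp e2).1) (Prod.ext_iff.mp e2).2
  rw [h2, h3] at h1
  exact h1

/-- **A finer context from a coarser one**, at the same window: `s` more digits. -/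
theorem ctt_fine {p : F.Ω → ℝ} (hp : IsLaw p) {w q l q' l' s : ℕ} {i0 : Fin 2}
    {z z' : F.Ω → Fin 2 → ℝ} (hw : w ≤ J) (hq : q ≤ q' + s)
    (hl : q + l ≤ q' + l' + s) (hJ : q' + w ≤ J) (hgr : ∀ ω i, ∃ a : ℤ, z ω i = a / 2 ^ l)
    (hz : ∀ ω, 0 < p ω → ∀ i, i ≠ i0 → |z' ω i - z ω i| ≤ 8 * 2 ^ s / 2 ^ l) :
    CH p (F.ctt w q l i0 z) (F.ctt w q' l' i0 z') ≤
      2 * Real.log (4 * (8 * 2 ^ s) + 3) + 2 * (2 * Real.log (4 * 2 * (8 * 2 ^ (2 * s)) + 3)) := by
  have h2s : (1 : ℝ) ≤ 2 ^ s := one_le_pow₀ (by norm_num)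
  have h22s : (1 : ℝ) ≤ 2 ^ (2 * s) := one_le_pow₀ (by norm_num)
  obtain ⟨D, hD⟩ : ∃ D : ℝ, D = 8 * 2 ^ (2 * s) := ⟨_, rfl⟩
  have hD1 : 1 ≤ D := by rw [hD]; linarith
  have hDs : (2 : ℝ) ^ s ≤ D := by
    have h1 : (2 : ℝ) ^ s ≤ 2 ^ (2 * s) := pow_le_pow_right₀ (by norm_num) (by omega)
    rw [hD]
    linarith
  have one_le : ∀ a b : ℕ, b ≤ a + s → 1 ≤ D * (2 : ℝ) ^ a / 2 ^ b := by
    intro a b hab
    rw [le_div_iff₀ (by positivity), one_mul]
    calc (2 : ℝ) ^ b ≤ 2 ^ (a + s) := pow_le_pow_right₀ (by norm_num) hab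
      _ = 2 ^ s * 2 ^ a := by rw [pow_add, mul_comm]
      _ ≤ D * 2 ^ a := mul_le_mul_of_nonneg_right hDs (by positivity)
  have zle : ∀ a b : ℕ, b ≤ a + l + s → (8 : ℝ) * 2 ^ s / 2 ^ l ≤ D * 2 ^ a / 2 ^ b := by
    intro a b hab
    rw [div_le_div_iff₀ (by positivity) (by positivity), hD]
    have h1 : (2 : ℝ) ^ b ≤ 2 ^ (a + l + s) := pow_le_pow_right₀ (by norm_num) hab
    have h3 : (8 : ℝ) * 2 ^ s * 2 ^ (a + l + s) = 8 * 2 ^ (2 * s) * 2 ^ a * 2 ^ l := by
      have : (8 : ℝ) * 2 ^ s * 2 ^ (a + l + s) = 8 * 2 ^ (s + (a + l + s)) := by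
        rw [pow_add 2 s]
        ring
      rw [this]
      have e2 : s + (a + l + s) = 2 * s + a + l := by ring
      rw [e2, pow_add, pow_add]
      ring
    rw [← h3]
    exact mul_le_mul_of_nonneg_left h1 (by positivity)
  have k1 := CH_frame (F := F) (p := p) (i0 := i0) (D := 8 * 2 ^ s) hp (by positivity) hgr hz
    (F.ctt w q' l' i0 z') (fun ω ω' _ _ h i hi => zfr_eq (ctt_ext h).2.1 hi)
  have k2 : CH p (F.ctt w q l i0 z) (fun ω => (zfr i0 (z ω), F.ctt w q' l' i0 z' ω)) ≤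
      2 * ((2 : ℕ) * Real.log (4 * (2 : ℕ) * D + 3)) := by
    refine Box.CH_mlb (F := F) hp (g := w) (g' := w)
      (k := fun i => min (qcv q' l' i0 i + w) J)
      (c := qcv q' l' i0) (k' := fun i => min (qcv q l i0 i + w) J) (c' := qcv q l i0)
      (kk := fun i => min (qcv q' l' i0 i + w) J) (M := fun ω => zfr i0 (z' ω))
      (M' := fun ω => zfr i0 (z ω)) hw hw (by linarith)
      (fun i => le_refl _)
      (fun i => by rw [min_self]; exact min_le_left _ _) ?_ _ ?_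
    · intro ω hω
      refine ⟨zch i0 (z' ω) (z ω), cg_zfr i0 (z' ω) (z ω), ?_, ?_⟩
      · intro i j
        show |zch i0 (z' ω) (z ω) i j| ≤
          D * 2 ^ min (qcv q' l' i0 j + w) J / 2 ^ min (qcv q l i0 i + w) J
        unfold zch qcv
        by_cases hi : i = i0
        · rw [if_pos hi, if_pos hi]
          by_cases hj : j = i0
          · rw [if_pos hj, if_pos hj, abs_one]
            exact one_le _ _ (by omega)
          · rw [if_neg hj, abs_zero]
            positivity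
        · rw [if_neg hi, if_neg hi]
          by_cases hj : j = i
          · have hj' : j ≠ i0 := fun h => hi (hj.symm.trans h)
            rw [if_pos hj, if_neg hj', abs_one]
            exact one_le _ _ (by omega)
          · rw [if_neg hj]
            by_cases hj' : j = i0
            · rw [if_pos hj', if_pos hj']
              exact (hz ω hω i hi).trans (zle _ _ (by omega))
            · rw [if_neg hj', abs_zero]
              positivity
      · intro i j
        show |zch i0 (z' ω) (z ω) i j| ≤ D * 2 ^ (qcv q' l' i0 j) / 2 ^ (qcv q l i0 i)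
        unfold zch qcv
        by_cases hi : i = i0
        · rw [if_pos hi, if_pos hi]
          by_cases hj : j = i0
          · rw [if_pos hj, if_pos hj, abs_one]
            exact one_le _ _ (by omega)
          · rw [if_neg hj, abs_zero]
            positivity
        · rw [if_neg hi, if_neg hi]
          by_cases hj : j = i
          · have hj' : j ≠ i0 := fun h => hi (hj.symm.trans h)
            rw [if_pos hj, if_neg hj', abs_one]
            exact one_le _ _ (by omega)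
          · rw [if_neg hj]
            by_cases hj' : j = i0
            · rw [if_pos hj', if_pos hj']
              exact (hz ω hω i hi).trans (zle _ _ (by omega))
            · rw [if_neg hj', abs_zero]
              positivity
    · intro ω ω' hω hω' h
      have h1 := (Prod.ext_iff.mp h).1
      have h2 : F.ctt w q' l' i0 z' ω = F.ctt w q' l' i0 z' ω' := (Prod.ext_iff.mp h).2
      exact ⟨h2, (ctt_ext h2).1, h1⟩
  have k3 := CH_le_add hp.nonneg (F.ctt w q l i0 z) (fun ω => zfr i0 (z ω))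
    (F.ctt w q' l' i0 z')
  rw [← hD]
  push_cast at k1 k2
  linarith

theorem log_pw (C : ℝ) (hC : 0 < C) (s : ℕ) : Real.log (C * 2 ^ s + 3) ≤
    s * Real.log 2 + Real.log (C + 3) := by
  have h1 : (1 : ℝ) ≤ 2 ^ s := one_le_pow₀ (by norm_num)
  rw [← Real.log_pow, ← Real.log_mul (by positivity) (by positivity)]
  refine Real.log_le_log (by positivity) ?_
  nlinarith

/-- The bound in the form used below. -/
theorem ctt_fine' {p : F.Ω → ℝ} (hp : IsLaw p) {w q l q' l' s : ℕ} {i0 : Fin 2}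
    {z z' : F.Ω → Fin 2 → ℝ} (hw : w ≤ J) (hq : q ≤ q' + s)
    (hl : q + l ≤ q' + l' + s) (hJ : q' + w ≤ J) (hgr : ∀ ω i, ∃ a : ℤ, z ω i = a / 2 ^ l)
    (hz : ∀ ω, 0 < p ω → ∀ i, i ≠ i0 → |z' ω i - z ω i| ≤ 8 * 2 ^ s / 2 ^ l) :
    CH p (F.ctt w q l i0 z) (F.ctt w q' l' i0 z') ≤
      10 * (s * Real.log 2) + 6 * Real.log 67 := by
  refine (ctt_fine hp hw hq hl hJ hgr hz).trans ?_
  have h1 := log_pw 32 (by norm_num) s
  have h2 := log_pw 64 (by norm_num) (2 * s)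
  have e1 : (4 : ℝ) * (8 * 2 ^ s) = 32 * 2 ^ s := by ring
  have e2 : (4 : ℝ) * 2 * (8 * 2 ^ (2 * s)) = 64 * 2 ^ (2 * s) := by ring
  rw [e1, e2]
  have h3 : Real.log (32 + 3) ≤ Real.log 67 := Real.log_le_log (by norm_num) (by norm_num)
  have h4 : Real.log (64 + 3) = Real.log 67 := by norm_num
  push_cast at h2
  rw [h4] at h2
  linarith

/-- The constant of the contexts of the exact points. -/
noncomputable def cpt : ℝ :=
  2 * Real.log (4 * 4 + 3) + 2 * (2 * Real.log (2 * (2 * 4 * (2 * (2 * 1 + 1))) + 3))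

theorem cpt_nonneg : 0 ≤ cpt := by
  unfold cpt
  have h1 : 0 ≤ Real.log (4 * 4 + 3) := Real.log_nonneg (by norm_num)
  have h2 : 0 ≤ Real.log (2 * (2 * 4 * (2 * (2 * 1 + 1))) + 3) := Real.log_nonneg (by norm_num)
  positivity

/-- **The contexts are visible**: known from the exact point, the boxes and the digits of the
direction. -/
theorem ctt_ptk {B : ℕ → Bx F} {k : ℕ} (hB : (B k).Ok (fun _ => True)) {w q l : ℕ}
    {z : F.Ω → Fin 2 → ℝ} (hz : Cld F (B k) w l z) (hw : w ≤ J) (hq : q + l ≤ (B k).n) :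
    CH F.p (F.ctt w q l (B k).i0 z)
      (fun ω => (ptk B k ω, ⌊(2 : ℝ) ^ q * F.d ω (B k).i0⌋)) ≤ cpt := by
  obtain ⟨i0, hi0⟩ : ∃ i0, i0 = (B k).i0 := ⟨_, rfl⟩
  obtain ⟨e, he⟩ : ∃ e : F.Ω → Fin 2 → ℝ, e = fun ω i => if i = i0 then 0 else (B k).a ω :=
    ⟨_, rfl⟩
  obtain ⟨W, hW⟩ : ∃ W, W = fun ω => (ptk B k ω, ⌊(2 : ℝ) ^ q * F.d ω (B k).i0⌋) := ⟨_, rfl⟩
  rw [← hW, ← hi0]
  have hlab : ∀ ω ω', W ω = W ω' → pt F ω = pt F ω' ∧ (B k).lab ω = (B k).lab ω' ∧
      ⌊(2 : ℝ) ^ q * F.d ω i0⌋ = ⌊(2 : ℝ) ^ q * F.d ω' i0⌋ := by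
    intro ω ω' h
    rw [hW] at h
    simp only [Prod.mk.injEq] at h
    obtain ⟨h1, h2⟩ := h
    have h3 := Prod.ext_iff.mp h1
    refine ⟨h3.1, ?_, by rw [hi0]; exact h2⟩
    have h4 := congrFun h3.2 k
    have h5 : ∀ ω, (ptk B k ω).2 k = (B k).lab ω := fun ω => by
      show clab B k ω k = _
      unfold clab
      rw [if_pos le_rfl]
    rw [h5, h5] at h4
    exact h4
  have he' : ∀ ω i, i ≠ i0 → e ω i = (B k).a ω := fun ω i hi => by
    rw [he]
    exact if_neg hi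
  have hnear : ∀ ω, 0 < F.p ω → ∀ i, i ≠ i0 → |e ω i - z ω i| ≤ 4 / 2 ^ l := by
    intro ω hω i hi
    rw [he' ω i hi, eq_oth15 hi, hi0]
    exact hz.near ω hω
  have k1 := CH_frame (F := F) (p := F.p) (i0 := i0) (z := e) (z' := z) (D := 4) F.isLaw
    (by norm_num) hz.grid hnear W (fun ω ω' _ _ h i hi => by
      rw [he' ω i hi, he' ω' i hi]
      exact (Prod.ext_iff.mp (hlab ω ω' h).2.1).1)
  have k2 := ctt_pt (F := F) (p := F.p) (w := w) (q := q) (q' := q) (l' := l) (i0 := i0)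
    (z := z) (D := 4) (B := 1) (n := (B k).n) (e := e) F.isLaw hw le_rfl (by norm_num) le_rfl hq
    (by
      intro ω hω i
      rw [he]
      dsimp only
      split_ifs
      · simp
      · exact hB.sl ω ⟨hω, trivial⟩) hnear (fun ω => (zfr i0 (z ω), W ω)) (by
      intro ω ω' hω hω' h
      have h1 := (Prod.ext_iff.mp h).1
      obtain ⟨h3, h4, h5⟩ := hlab ω ω' (Prod.ext_iff.mp h).2
      have h6 := Prod.ext_iff.mp h4
      have ha : (B k).a ω = (B k).a ω' := h6.1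
      have hn : ⌊(2 : ℝ) ^ (B k).n * (B k).pr ω (F.d ω)⌋ =
        ⌊(2 : ℝ) ^ (B k).n * (B k).pr ω' (F.d ω')⌋ := (Prod.ext_iff.mp h6.2).2
      refine ⟨(Prod.ext_iff.mp h3).1, (Prod.ext_iff.mp h3).2, fun i hi => ⟨?_, zfr_eq h1 hi⟩,
        Box.near_of_floor h5, fun i hi => ?_⟩
      · rw [he' ω i hi, he' ω' i hi, ha]
      · have h7 := Box.near_of_floor hn
        rw [he' ω i hi, eq_oth15 hi, hi0]
        have e1 : (B k).pr ω' (F.d ω') = F.d ω' (oth (B k).i0) -
          (B k).a ω * F.d ω' (B k).i0 := by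
          show F.d ω' (oth (B k).i0) - (B k).a ω' * F.d ω' (B k).i0 = _
          rw [ha]
        rw [e1] at h7
        exact h7)
  have k3 := CH_le_add F.isLaw.nonneg (F.ctt w q l i0 z) (fun ω => zfr i0 (z ω)) W
  unfold cpt
  push_cast at k1 k2
  linarith

/-- The digits of the direction, given the boxes. -/
theorem dir_ptk {B : ℕ → Bx F} {k : ℕ} {q : ℕ} (hq : (B k).q ≤ q) :
    CH F.p (fun ω => ⌊(2 : ℝ) ^ q * F.d ω (B k).i0⌋) (ptk B k) ≤
      ((q : ℝ) - (B k).q) * Real.log 2 + Real.log 8 := by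
  obtain ⟨r, rfl⟩ := Nat.exists_eq_add_of_le hq
  have h1 := CH_bd1 F.isLaw (fun ω => ⌊(2 : ℝ) ^ ((B k).q + r) * F.d ω (B k).i0⌋) (ptk B k)
    (2 ^ r + 1) (by
      intro ω ω' _ _ h
      have h2 := Prod.ext_iff.mp (clab_det le_rfl (congrArg Prod.snd h) :
        (B k).lab ω = (B k).lab ω')
      have h3 := Box.near_of_floor (Prod.ext_iff.mp h2.2).1
      refine Box.floor_near (h3.trans (le_of_eq ?_))
      rw [pow_add]
      field_simp)
  refine h1.trans ?_
  have h2 : (1 : ℝ) ≤ 2 ^ r := one_le_pow₀ (by norm_num)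
  have e : (((B k).q + r : ℕ) : ℝ) - (B k).q = r := by push_cast; ring
  rw [e, ← Real.log_pow, ← Real.log_mul (by positivity) (by norm_num)]
  exact Real.log_le_log (by positivity) (by linarith)

/-- The price of the boxes. -/
theorem clab_pt {M g : ℕ} {B : ℕ → Bx F} {N : ℕ → ℝ} (h : Chn F (fun _ => True) M g B N) {k : ℕ}
    (hk : k < M) : CH F.p (clab B k) (pt F) ≤ N k := by
  have h1 := (h.cnt k hk).entropy F.isLaw (fun ω hω => ⟨hω, trivial⟩)
  rwa [Real.log_exp] at h1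

theorem ptk_pt {M g : ℕ} {B : ℕ → Bx F} {N : ℕ → ℝ} (h : Chn F (fun _ => True) M g B N) {k : ℕ}
    (hk : k < M) {S : Type} (b : F.Ω → S) : CH F.p b (pt F) ≤ CH F.p b (ptk B k) + N k := by
  have hp := F.isLaw.nonneg
  have h1 := CH_le_add hp b (clab B k) (pt F)
  have h2 := clab_pt h hk
  have h3 : CH F.p b (fun ω => (clab B k ω, pt F ω)) = CH F.p b (ptk B k) := by
    refine CH_congr hp (fun _ _ _ _ e => (Prod.ext_iff.mp e).1)
      (fun _ _ _ _ e => (Prod.ext_iff.mp e).1) ?_ ?_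
    · intro ω ω' _ _ e
      exact Prod.ext (Prod.ext_iff.mp e).2 (Prod.ext_iff.mp e).1
    · intro ω ω' _ _ e
      exact Prod.ext (Prod.ext_iff.mp e).2 (Prod.ext_iff.mp e).1
  rw [h3] at h1
  linarith

/-- **The end, from a context of the level `k`.** -/
theorem end_ctt {M g : ℕ} {B : ℕ → Bx F} {N : ℕ → ℝ} (h : Chn F (fun _ => True) M g B N) {k : ℕ}
    (hk : k < M) {w q l : ℕ} {z : F.Ω → Fin 2 → ℝ} (hz : Cld F (B k) w l z) (hw : w ≤ J)
    (hq0 : (B k).q ≤ q) (hq : q + l ≤ (B k).n) :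
    cNf F w q l (B k).i0 z ≤
      F.Vf + N k + ((q : ℝ) - (B k).q) * Real.log 2 + (cpt + Real.log 8) := by
  have hp := F.isLaw.nonneg
  have h1 := end_pt (F.ctt w q l (B k).i0 z) (ctt_det hz.det) (ctt_T1 le_rfl hw)
  have h2 := ptk_pt h hk (F.ctt w q l (B k).i0 z)
  have h3 := ctt_ptk (h.ok k hk) hz hw hq
  have h4 := dir_ptk (F := F) (B := B) (k := k) hq0
  have h5 := CH_le_add hp (F.ctt w q l (B k).i0 z)
    (fun ω => ⌊(2 : ℝ) ^ q * F.d ω (B k).i0⌋) (ptk B k)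
  have h6 : CH F.p (F.ctt w q l (B k).i0 z)
      (fun ω => (⌊(2 : ℝ) ^ q * F.d ω (B k).i0⌋, ptk B k ω)) ≤
      CH F.p (F.ctt w q l (B k).i0 z)
      (fun ω => (ptk B k ω, ⌊(2 : ℝ) ^ q * F.d ω (B k).i0⌋)) :=
    CH_mono_cond hp fun ω ω' _ _ e =>
      Prod.ext (Prod.ext_iff.mp e).2 (Prod.ext_iff.mp e).1
  unfold cNf
  linarith

/-- The contexts of the closed levels. -/
structure Lvs (F : Fam 2 J) (B : ℕ → Bx F) (M : ℕ) (wk l : ℕ → ℕ) (z : ℕ → F.Ω → Fin 2 → ℝ) :
    Prop where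
  cl : ∀ j < M, wk j ≤ J → Cld F (B j) (wk j) (l j) (z j)
  ln : ∀ j < M, wk j ≤ J → (B j).q + l j ≤ (B j).n

section cumul

variable {B : ℕ → Bx F} {M : ℕ} {wk l : ℕ → ℕ} {z : ℕ → F.Ω → Fin 2 → ℝ}

theorem cum_det15 (h : Lvs F B M wk l z) {k w : ℕ} (hk : k < M) (hw : w ≤ J) :
    Det F.p (slam F w) (cum F B wk l z k w) := by
  intro ω ω' hω hω' e
  funext j
  unfold cum
  by_cases hj : j ≤ k ∧ wk j ≤ w
  · rw [if_pos hj, if_pos hj]
    have h1 := (h.cl j (hj.1.trans_lt hk) (hj.2.trans hw)).mono hj.2 hw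
    exact congrArg some (ctt_det h1.det ω ω' hω hω' e)
  · rw [if_neg hj, if_neg hj]

theorem cum_ctt {k j w : ℕ} (hj : j ≤ k) (hw : wk j ≤ w) {ω ω' : F.Ω}
    (e : cum F B wk l z k w ω = cum F B wk l z k w ω') :
    F.ctt w (B j).q (l j) (B j).i0 (z j) ω = F.ctt w (B j).q (l j) (B j).i0 (z j) ω' := by
  have h1 := congrFun e j
  unfold cum at h1
  rw [if_pos ⟨hj, hw⟩, if_pos ⟨hj, hw⟩] at h1
  exact Option.some.inj h1

theorem cum_T1 {k w : ℕ} (hwk : wk k ≤ w) (hw : w ≤ J) :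
    Det F.p (cum F B wk l z k w) (F.T1 w) := by
  intro ω ω' hω hω' e
  exact ctt_T1 (p := F.p) le_rfl hw ω ω' hω hω' (cum_ctt le_rfl hwk e)

/-- The cumulative contexts are visible. -/
theorem cum_ptk (h : Lvs F B M wk l z) (hB : ∀ j < M, (B j).Ok (fun _ => True)) {k w : ℕ}
    (hk : k < M) (hw : w ≤ J) :
    CH F.p (cum F B wk l z k w) (ptk B k) ≤ ((k : ℝ) + 1) * cpt := by
  have hp := F.isLaw.nonneg
  obtain ⟨c, hc⟩ : ∃ c, c = fun (n : ℕ) (ω : F.Ω) (j : ℕ) =>
    if j < n then cum F B wk l z k w ω j else none := ⟨_, rfl⟩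
  have key : ∀ n ≤ k + 1, CH F.p (c n) (ptk B k) ≤ (n : ℝ) * cpt := by
    intro n
    induction n with
    | zero =>
      intro _
      have h1 : CH F.p (c 0) (ptk B k) = 0 := by
        refine CH_eq_zero hp ?_
        intro ω ω' _ _ _
        rw [hc]
        funext j
        simp
      rw [h1]
      simp
    | succ n ih =>
      intro hn
      have h1 : CH F.p (c (n + 1)) (ptk B k) ≤
          CH F.p (fun ω => (c n ω, cum F B wk l z k w ω n)) (ptk B k) := by
        refine CH_mono_left hp fun ω ω' _ _ e => ?_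
        have e1 := (Prod.ext_iff.mp e).1
        have e2 := Prod.ext_iff.mp e1
        rw [hc] at e2 ⊢
        funext j
        dsimp only at e2 ⊢
        by_cases hj : j < n
        · have e3 := congrFun e2.1 j
          rw [if_pos hj, if_pos hj] at e3
          rw [if_pos (by omega), if_pos (by omega)]
          exact e3
        · by_cases hj' : j = n
          · rw [if_pos (by omega), if_pos (by omega), hj']
            exact e2.2
          · rw [if_neg (by omega), if_neg (by omega)]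
      have h2 := CH_subadd hp (c n) (fun ω => cum F B wk l z k w ω n) (ptk B k)
      have h3 : CH F.p (fun ω => cum F B wk l z k w ω n) (ptk B k) ≤ cpt := by
        by_cases hj : n ≤ k ∧ wk n ≤ w
        · have hnM : n < M := by omega
          have h4 := ctt_ptk (hB n hnM)
            ((h.cl n hnM (hj.2.trans hw)).mono hj.2 hw) hw (h.ln n hnM (hj.2.trans hw))
          refine le_trans ?_ h4
          refine le_trans (CH_mono_left hp (X' := F.ctt w (B n).q (l n) (B n).i0 (z n))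
            fun ω ω' _ _ e => ?_) (CH_mono_cond hp fun ω ω' _ _ e => ?_)
          · unfold cum
            rw [if_pos hj, if_pos hj]
            exact congrArg some (Prod.ext_iff.mp e).1
          · have e1 := ptk_det_ptk (F := F) (A := fun _ => True) B hj.1
            have e2 : (B n).lab ω = (B n).lab ω' := clab_det hj.1 (congrArg Prod.snd e)
            refine Prod.ext ?_ (Prod.ext_iff.mp (Prod.ext_iff.mp e2).2).1
            show (pt F ω, clab B n ω) = (pt F ω', clab B n ω')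
            rw [show pt F ω = pt F ω' from congrArg Prod.fst e,
              clab_mono hj.1 (congrArg Prod.snd e)]
        · have h4 : CH F.p (fun ω => cum F B wk l z k w ω n) (ptk B k) = 0 := by
            refine CH_eq_zero hp ?_
            intro ω ω' _ _ _
            unfold cum
            show (if n ≤ k ∧ wk n ≤ w then _ else _) = (if n ≤ k ∧ wk n ≤ w then _ else _)
            rw [if_neg hj, if_neg hj]
          rw [h4]
          exact cpt_nonneg
      have h4 := ih (by omega)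
      push_cast
      linarith
  have h1 := key (k + 1) le_rfl
  have h2 : CH F.p (cum F B wk l z k w) (ptk B k) ≤ CH F.p (c (k + 1)) (ptk B k) := by
    refine CH_mono_left hp fun ω ω' _ _ e => ?_
    have e1 := (Prod.ext_iff.mp e).1
    funext j
    by_cases hj : j < k + 1
    · have e2 := congrFun e1 j
      rw [hc] at e2
      dsimp only at e2
      rwa [if_pos hj, if_pos hj] at e2
    · unfold cum
      rw [if_neg (by omega), if_neg (by omega)]
  push_cast at h1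
  linarith

/-- **The end, from a cumulative context.** -/
theorem end_cum {g : ℕ} {N : ℕ → ℝ} (hC : Chn F (fun _ => True) M g B N) (h : Lvs F B M wk l z)
    {k w : ℕ} (hk : k < M) (hwk : wk k ≤ w) (hw : w ≤ J) :
    nfo F w (cum F B wk l z k w) ≤ F.Vf + N k + ((k : ℝ) + 1) * cpt := by
  have h1 := end_pt (cum F B wk l z k w) (cum_det15 h hk hw) (cum_T1 hwk hw)
  have h2 := ptk_pt hC hk (cum F B wk l z k w)
  have h3 := cum_ptk h hC.ok hk hw
  linarith

/-- **The switch** from a context below the saturation to the cumulative context. -/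
theorem switch15 (h : Lvs F B M wk l z) {k w q lw s : ℕ} (hk : k < M) (hwk : wk k ≤ w) (hw : w ≤ J)
    {zw : F.Ω → Fin 2 → ℝ} (hz : Cld F (B k) w lw zw) (hq : q ≤ (B k).q + s)
    (hl : q + lw ≤ (B k).q + l k + s) (hlw : lw ≤ l k + s) (hJ : (B k).q + w ≤ J) :
    cNf F w q lw (B k).i0 zw ≤
      nfo F w (cum F B wk l z k w) + (10 * (s * Real.log 2) + 6 * Real.log 67) := by
  have hp := F.isLaw.nonneg
  have hk' := (h.cl k hk (hwk.trans hw)).mono hwk hw
  have h1 := nfo_mono F.isLaw (F.ctt w q lw (B k).i0 zw) (cum F B wk l z k w)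
    (ctt_det hz.det) (ctt_T1 le_rfl hw) (cum_det15 h hk hw) (cum_T1 hwk hw)
  have h2 : CH F.p (F.ctt w q lw (B k).i0 zw) (fun ω => (cum F B wk l z k w ω, F.Z ω)) ≤
      CH F.p (F.ctt w q lw (B k).i0 zw) (F.ctt w (B k).q (l k) (B k).i0 (z k)) :=
    CH_mono_cond hp fun ω ω' _ _ e => cum_ctt le_rfl hwk (Prod.ext_iff.mp e).1
  have h3 := ctt_fine' (F := F) (p := F.p) (w := w) (q := q) (l := lw) (q' := (B k).q)
    (l' := l k) (s := s) (i0 := (B k).i0) (z := zw) (z' := z k) F.isLaw hw hq hl hJ hz.grid (by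
      intro ω hω i hi
      rw [eq_oth15 hi]
      have a1 := hz.near ω hω
      have a2 := hk'.near ω hω
      have a3 : |z k ω (oth (B k).i0) - zw ω (oth (B k).i0)| ≤
          4 / 2 ^ l k + 4 / 2 ^ lw := by
        have e1 : z k ω (oth (B k).i0) - zw ω (oth (B k).i0) =
          ((B k).a ω - zw ω (oth (B k).i0)) - ((B k).a ω - z k ω (oth (B k).i0)) := by ring
        rw [e1]
        refine (abs_sub _ _).trans ?_
        linarith
      refine a3.trans ?_
      have h2s : (1 : ℝ) ≤ 2 ^ s := one_le_pow₀ (by norm_num)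
      have a4 : (4 : ℝ) / 2 ^ l k ≤ 4 * 2 ^ s / 2 ^ lw := by
        rw [div_le_div_iff₀ (by positivity) (by positivity), mul_assoc, ← pow_add]
        refine mul_le_mul_of_nonneg_left ?_ (by norm_num)
        exact pow_le_pow_right₀ (by norm_num) (by omega)
      have a5 : (4 : ℝ) / 2 ^ lw ≤ 4 * 2 ^ s / 2 ^ lw :=
        div_le_div_of_nonneg_right (by linarith) (by positivity)
      have e2 : (8 : ℝ) * 2 ^ s / 2 ^ lw = 4 * 2 ^ s / 2 ^ lw + 4 * 2 ^ s / 2 ^ lw := by ring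
      rw [e2]
      linarith)
  unfold cNf
  unfold nfo at h1 ⊢
  linarith

end cumul

end Pool.PC
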