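import Pool.Agent.H15.PC.AMain
import Pool.Agent.H15.PC.Cmp

/-!
# Plan C: ALPHA from its main case

`alpha_red : (∀ C, 0 ≤ C → AMain C) → ALPHAStmt`.
-/

set_option autoImplicit false

namespace Pool.PC

open Finset Real
open Pool.Agent.H49.Ent Pool.Agent.H32.Dense Pool.STK Pool.KA Pool.KSAT Pool.K2S Pool.LK

variable {J : ℕ} {F : Fam 2 J}

/-- The conclusion of ALPHA. -/
def AConc (ε : ℝ) (F : Fam 2 J) (B : Bx F) (c : Nm) (n : ℕ) (x : ℝ) (t : ℕ) : Prop :=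
  ∃ (q w₁ we l₁ le : ℕ) (z₁ ze : F.Ω → Fin 2 → ℝ), B.q ≤ q ∧
    (q : ℝ) ≤ B.q + x * J ∧ q + le ≤ B.n ∧ l₁ ≤ le ∧ (w₁ : ℝ) ≤ ε * J ∧ w₁ ≤ we ∧
    q + we ≤ J ∧ Cld F B w₁ l₁ z₁ ∧ Cld F B we le ze ∧
    ((t ≤ n ∧ msh J n t ≤ we ∧ (c.n - c.q - 2 * x) * J ≤ le) ∨ (J : ℝ) ≤ q + we + ε * J) ∧
    cNf F w₁ q l₁ B.i0 z₁ + (cVol J we q le - cVol J w₁ q l₁) - ε * J ≤
      cNf F we q le B.i0 ze

theorem msh_zero15 (n : ℕ) : msh J n 0 = 0 := by
  unfold msh
  simp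

/-- **The target is the window `0`.** -/
theorem alpha_zero {B : ℕ → Bx F} {k n : ℕ} {c : Nm} {h x ε : ℝ} (hε : 0 ≤ ε) (hh : 0 ≤ h)
    (hx : 4 * h ≤ x) (hxJ : 2 ≤ x * J) (hB : (B k).Ok (fun _ => True))
    (hL : Lvl F c n h B k) (hr : c.n - c.q - x ≤ c.rot (((0 : ℕ) : ℝ) / n)) :
    AConc ε F (B k) c n x 0 := by
  have hJ : (0 : ℝ) ≤ J := Nat.cast_nonneg J
  obtain ⟨l, hl⟩ : ∃ l : ℕ, l = ⌊(c.n - c.q - x - 2 * h) * J⌋₊ := ⟨_, rfl⟩
  obtain ⟨z, hz⟩ := cld_of_clo (B := B k) (l := l) hB (by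
    rw [hl]
    refine Nat.floor_mono (mul_le_mul_of_nonneg_right ?_ hJ)
    show c.n - c.q - x - 2 * h ≤ c.rot (((0 : ℕ) : ℝ) / n) - h
    linarith) (hL.cl 0 (Nat.zero_le n))
  rw [msh_zero15] at hz
  have h3 := hL.hq
  have h4 := hL.hn
  rw [abs_le] at h3 h4
  have hln : (B k).q + l ≤ (B k).n := by
    rcases le_or_gt 0 ((c.n - c.q - x - 2 * h) * J) with h5 | h5
    · have h6 : ((l : ℕ) : ℝ) ≤ (c.n - c.q - x - 2 * h) * J := by
        rw [hl]
        exact Nat.floor_le h5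
      have h7 : (((B k).q + l : ℕ) : ℝ) ≤ ((B k).n : ℕ) := by
        push_cast
        nlinarith
      exact_mod_cast h7
    · have h6 : l = 0 := by
        rw [hl]
        exact Nat.floor_of_nonpos h5.le
      rw [h6]
      exact hB.le
  have hlx : (c.n - c.q - 2 * x) * J ≤ l := by
    have h1 : (c.n - c.q - x - 2 * h) * J < (l : ℝ) + 1 := by
      rw [hl]
      exact Nat.lt_floor_add_one _
    nlinarith
  have hqJ : (B k).q + 0 ≤ J := by
    have := hB.le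
    have := hB.leJ
    omega
  refine ⟨(B k).q, 0, 0, l, l, z, z, le_rfl, ?_, hln, le_rfl, ?_, le_rfl, hqJ, hz, hz,
    Or.inl ⟨Nat.zero_le n, ?_, hlx⟩, ?_⟩
  · have : 0 ≤ x * J := by positivity
    linarith
  · simpa using mul_nonneg hε hJ
  · rw [msh_zero15]
  · have : 0 ≤ ε * J := by positivity
    linarith

/-- **The main case.** -/
theorem alpha_main {C : ℝ} (key : ∀ {J : ℕ} (F : Fam 2 J)
    (i0 : Fin 2) (W₀ W₁ X qa qb wx x : ℕ) (vp : ℕ → ℕ) (z : ℕ → F.Ω → Fin 2 → ℝ)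
    (al : F.Ω → Fin 2 → ℝ) (Bd : Finset (ℕ × ℕ)) (Sb : Finset ℕ) (ρ η er e₀ p₁ : ℝ),
    Frs F i0 W₀ W₁ vp z al 2 → J ≤ qa + W₁ → W₀ + X + qb ≤ J → qa < qb → 0 < X → x ≤ X →
    2 * (2 : ℝ) ≤ 2 ^ X → 0 < η → η < 1 → 0 ≤ er → 0 ≤ e₀ → 0 ≤ p₁ → p₁ ≤ 1 →
    (Bd.card : ℝ) ≤ ρ * J * (qb - qa : ℕ) → Sb ⊆ Finset.range X → 2 * Sb.card ≤ X →
    (∀ w q, W₀ ≤ w → qa ≤ q → q < qb → (w, q) ∉ Bd → w < wx →
      q + vp (w + X) + (w + X) ≤ J →
      cVol J (w + X) q (vp (w + X)) - cVol J w q (vp w) - e₀ * X ≤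
        cNf F (w + X) q (vp (w + X)) i0 (z (w + X)) - cNf F w q (vp w) i0 (z w)) →
    (∀ w q, W₀ ≤ w → qa ≤ q → q < qb → (w, q) ∉ Bd → q + (w + X) ≤ J →
      X * Real.log 2 - er ≤ CH F.p (bps F (w + X) (q + (w + X)) i0)
        (fun ω => (F.T1 (w + X) ω, F.ctt w q (vp w) i0 (z w) ω))) →
    (∀ w, W₀ ≤ w → w + qa ≤ J → w < wx → (w - W₀) % X ∉ Sb →
      Pe (dbl F.p (slam F w)) (fun u => ∀ k, k ≠ i0 →
        |al u.1 k - al u.2 k| ≤ 2 / 2 ^ (vp w + x)) ≤ p₁) →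
    ∃ q s b, qa ≤ q ∧ q < qb ∧ s < X ∧ s ∉ Sb ∧ q + (W₀ + s + b * X) ≤ J ∧
      (wx ≤ W₀ + s + b * X ∨ J < q + (W₀ + s + b * X) + X) ∧
      cVol J (W₀ + s + b * X) q (vp (W₀ + s + b * X)) - cVol J (W₀ + s) q (vp (W₀ + s)) -
        (e₀ * J + (7 * Real.log 2 * X + C) / η * (2 * (ρ * J) / X + 1) +
          ((η + 2 * p₁) * Real.log 2 + 2 * ((er + C) / X)) * J) ≤
      cNf F (W₀ + s + b * X) q (vp (W₀ + s + b * X)) i0 (z (W₀ + s + b * X)) -
        cNf F (W₀ + s) q (vp (W₀ + s)) i0 (z (W₀ + s)))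
    {B : ℕ → Bx F} {k n t : ℕ} {c : Nm} {δ h x ε : ℝ} (hc : c.Ok δ) (hn : 1 ≤ n) (hnJ : n ≤ J)
    (hh : 0 ≤ h) (hx : 8 * h ≤ x) (hxJ : 4 ≤ x * J)
    (hxc : x < c.n - c.q) (hL : Lvl F c n h B k)
    (ht2 : t ≤ n → cpx c x ≤ c.rot (t / n))
    {X qa qb x' : ℕ} {a : ℕ → F.Ω → ℝ} {Bd : Finset (ℕ × ℕ)} {Sb : Finset ℕ}
    {ρ et er e₀ p₁ : ℝ} (hO : AOut C ε F (B k) c n h x t X qa qb x' a Bd Sb ρ et er e₀ p₁)
    (htn : t ≤ n + 1) : AConc ε F (B k) c n x t := by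
  have hJ : (0 : ℝ) ≤ J := Nat.cast_nonneg J
  obtain ⟨vp, hvp⟩ : ∃ vp, vp = vpc c (cpx c x) h n J := ⟨_, rfl⟩
  have hlev := hO.lev
  rw [← hvp] at hlev
  obtain ⟨q, s, b, g1, g2, g3, g4, g5, g6, g7⟩ := key F (B k).i0 0 J X qa qb (msh J n t) x'
    vp (fun w => zv (B k).i0 (a w)) (zv (B k).i0 (B k).a) Bd Sb ρ et er e₀ p₁
    (hlev.frs (fun w => by rw [hvp]; exact vpc_J hc hh w)) (by omega) (by have := hO.qJ; omega)
    hO.qab hO.X0 hO.xX (by
      have h4 : (4 : ℝ) ≤ 2 ^ X := by exact_mod_cast hO.X4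
      linarith) hO.et0 hO.et1 hO.er0 hO.e0 hO.p0 hO.p1 hO.bd
    hO.sb1 hO.sb2
    (fun w q _ h2 h3 h4 h5 h6 => by
      have := hO.hS w q (by omega) h2 h3 h4 h5
      rw [← hvp] at this
      exact this h6)
    (fun w q _ h2 h3 h4 h5 => by
      have := hO.hR w q (by omega) h2 h3 h4
      rw [← hvp] at this
      exact this h5)
    (fun w _ h2 h3 h4 => by
      have := hO.hT w h2 h3 (by simpa using h4)
      rw [← hvp] at this
      exact this)
  rw [Nat.zero_add] at g5 g6 g7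
  obtain ⟨we, hwe⟩ : ∃ we, we = s + b * X := ⟨_, rfl⟩
  rw [← hwe] at g5 g6 g7
  have hsw : s ≤ we := by rw [hwe]; exact Nat.le_add_right _ _
  have hweJ : we ≤ J := by omega
  have hq3 := hL.hq
  have hn3 := hL.hn
  rw [abs_le] at hq3 hn3
  have hqR : (q : ℝ) < qb := by exact_mod_cast g2
  have hqb := hO.qb1
  have hq1 := hO.qa0
  have hxJ' : 8 * (h * J) ≤ x * J := by nlinarith
  have hhJ : 0 ≤ h * J := by positivity
  -- the precision at the end
  have hle1 : (vp we : ℝ) ≤ max 0 ((cpx c x - 2 * h) * J) := by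
    rw [hvp, vpc_eq]
    rcases le_total 0 ((min (c.rot ((mix 0 (1 / (n : ℝ)) J we : ℕ) / n)) (cpx c x) - 2 * h) * J)
      with h2 | h2
    · refine le_trans (Nat.floor_le h2) (le_max_of_le_right ?_)
      refine mul_le_mul_of_nonneg_right ?_ hJ
      have := min_le_right (c.rot ((mix 0 (1 / (n : ℝ)) J we : ℕ) / n)) (cpx c x)
      linarith
    · rw [Nat.floor_of_nonpos h2]
      simp
  have hln : q + vp we ≤ (B k).n := by
    have h7 : ((q + vp we : ℕ) : ℝ) ≤ ((B k).n : ℕ) := by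
      push_cast
      rcases le_total 0 ((cpx c x - 2 * h) * J) with h5 | h5
      · rw [max_eq_right h5] at hle1
        have e1 : (cpx c x - 2 * h) * J = c.n * J - c.q * J - x * J - 2 * (h * J) := by
          unfold cpx
          ring
        rw [e1] at hle1
        have e2 : (x - 4 * h) * J = x * J - 4 * (h * J) := by ring
        rw [e2] at hqb
        linarith
      · rw [max_eq_left h5] at hle1
        have e2 : (x - 4 * h) * J = x * J - 4 * (h * J) := by ring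
        rw [e2] at hqb
        have e3 : x * J ≤ (c.n - c.q) * J := mul_le_mul_of_nonneg_right hxc.le hJ
        have e4 : (c.n - c.q) * J = c.n * J - c.q * J := by ring
        linarith
    exact_mod_cast h7
  refine ⟨q, s, we, vp s, vp we, zv (B k).i0 (a s), zv (B k).i0 (a we), hq1.trans g1, ?_, hln,
    ?_, ?_, hsw, g5, hlev.cld (Nat.zero_le s) (hsw.trans hweJ), hlev.cld (Nat.zero_le we) hweJ,
    ?_, ?_⟩
  · have e2 : (x - 4 * h) * J = x * J - 4 * (h * J) := by ring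
    rw [e2] at hqb
    linarith
  · rw [hvp]
    exact vpc_mono hc.rm hn hsw
  · have h1 : (s : ℝ) ≤ X := by exact_mod_cast g3.le
    exact h1.trans hO.Xe
  · rcases g6 with h1 | h1
    · rcases Nat.lt_or_ge n t with h2 | h2
      · -- the target is beyond the top
        exfalso
        have h3 : t = n + 1 := by omega
        have h4 : J + 1 ≤ msh J n t := by
          rw [h3]
          refine Nat.le_floor ?_
          have hn0 : (0 : ℝ) < n := by exact_mod_cast hn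
          have hnJ' : (n : ℝ) ≤ J := by exact_mod_cast hnJ
          push_cast
          rw [add_div, div_self hn0.ne', add_mul, one_mul]
          have h5 : (1 : ℝ) ≤ 1 / n * J := by
            rw [one_div, inv_mul_eq_div, le_div_iff₀ hn0]
            linarith
          linarith
        omega
      · left
        refine ⟨h2, h1, ?_⟩
        have h3 : vp (msh J n t) ≤ vp we := by
          rw [hvp]
          exact vpc_mono hc.rm hn h1
        have h4 : vp (msh J n t) = ⌊(cpx c x - 2 * h) * J⌋₊ := by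
          rw [hvp, vpc_eq, ← mwi_msh, mix_mwi le_rfl (mshe hn) (mshJ hn hnJ),
            min_eq_right (ht2 h2)]
        have h5 := Nat.lt_floor_add_one ((cpx c x - 2 * h) * J)
        have h6 : (vp (msh J n t) : ℝ) ≤ vp we := by exact_mod_cast h3
        rw [h4] at h6
        have e1 : (cpx c x - 2 * h) * J = c.n * J - c.q * J - x * J - 2 * (h * J) := by
          unfold cpx
          ring
        have e2 : (c.n - c.q - 2 * x) * J = c.n * J - c.q * J - 2 * (x * J) := by ring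
        rw [e2]
        rw [e1] at h5 h6
        linarith
    · right
      have h2 : (J : ℝ) < q + we + X := by exact_mod_cast h1
      have h3 := hO.Xe
      linarith
  · have h1 := hO.bud
    linarith

/-- **ALPHA from its main case.** -/
theorem alpha_red (hA : ∀ C : ℝ, 0 ≤ C → AMain C) : ALPHAStmt := by
  obtain ⟨C, hC, key⟩ := theta_alpha (C₀ := 2) (by norm_num)
  intro ε hε δ hδ
  obtain ⟨η, hη, hA⟩ := hA C hC ε hε δ hδ
  refine ⟨η, hη, fun K c hc x hx => ?_⟩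
  by_cases hxc : x < c.n - c.q
  · obtain ⟨n₀, hn₀, hA⟩ := hA K c hc x hx hxc
    refine ⟨n₀, hn₀, fun n hn hd => ?_⟩
    obtain ⟨h₀, hh₀, hA⟩ := hA n hn hd
    obtain ⟨h, hh⟩ : ∃ h, h = min h₀ (x / 8) := ⟨_, rfl⟩
    have hh0 : 0 < h := by rw [hh]; exact lt_min hh₀ (by positivity)
    obtain ⟨J₀, hA⟩ := hA h hh0 (by rw [hh]; exact min_le_left _ _)
    have hhx : 8 * h ≤ x := by
      have : h ≤ x / 8 := by rw [hh]; exact min_le_right _ _
      linarith
    refine ⟨h, hh0, max J₀ (max n ⌈4 / x⌉₊), ?_⟩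
    intro J hJ F B k hTr hTim hB hL t ht hti htt
    have hJ1 : J₀ ≤ J := (le_max_left _ _).trans hJ
    have hJn : n ≤ J := ((le_max_left _ _).trans (le_max_right _ _)).trans hJ
    have hxJ : 4 ≤ x * J := by
      have h1 : ⌈4 / x⌉₊ ≤ J := ((le_max_right _ _).trans (le_max_right _ _)).trans hJ
      have h2 : 4 / x ≤ (J : ℝ) := (Nat.le_ceil _).trans (by exact_mod_cast h1)
      rw [div_le_iff₀ hx] at h2
      linarith
    rcases Nat.eq_zero_or_pos t with h0 | h0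
    · subst h0
      exact alpha_zero hε.le hh0.le (by linarith) (by linarith) hB hL
        (htt (Nat.zero_le n))
    · obtain ⟨X, qa, qb, x', a, Bd, Sb, ρ, et, er, e₀, p₁, hO⟩ :=
        hA J hJ1 F B k hTr hTim hB hL t h0 ht hti
      exact alpha_main key hc hn hJn hh0.le hhx hxJ hxc hL htt hO ht
  · -- the target is the window `0`
    refine ⟨1, le_rfl, fun n hn _ => ⟨x / 8, by positivity, ⌈4 / x⌉₊, ?_⟩⟩
    intro J hJ F B k hTr hTim hB hL t ht hti htt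
    have hxJ : 4 ≤ x * J := by
      have h2 : 4 / x ≤ (J : ℝ) := (Nat.le_ceil _).trans (by exact_mod_cast hJ)
      rw [div_le_iff₀ hx] at h2
      linarith
    have h0 : t = 0 := by
      by_contra h1
      have h2 := hti 0 (Nat.pos_of_ne_zero h1)
      have h3 := hc.r0 (((0 : ℕ) : ℝ) / n)
      linarith
    subst h0
    exact alpha_zero hε.le (by positivity) (by linarith) (by linarith) hB hL
      (htt (Nat.zero_le n))

end Pool.PC
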