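import Pool.Agent.H54.PC.Chain
import Pool.Agent.H70.PC.NestT
import Pool.Agent.H64.PC.Jmp
import Pool.Agent.H85.TG.Defs2

/-!
# Plan C: the theorem for one family, statements

`Nm`: the numbers of one level of the class. `Dcr`: everything the class says about one family, at
the windows `i / n` of a finite mesh, up to the error `h`, on all events of probability at least
`h`. `FAMStmt`: the label inequality for such families, up to `ε J` and the price of the boxes.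
`ALPHAStmt`, `BETAStmt`: the parts of the proof below and above the saturation of the frame.
-/

set_option autoImplicit false

namespace Pool.PC

open Finset Real
open Pool.Agent.H49.Ent Pool.Agent.H32.Dense Pool.STK Pool.KA Pool.KSAT Pool.K2S Pool.LK

variable {J : ℕ}

/-! ### The numbers of the class -/

/-- The numbers of a level: the precisions `q ≤ n` of the box, the precision `rot w` to which the
slope is closed on the windows `w`, the rate `act y` of the digits of the direction in the interval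
of precisions `[q, q + y]`, given the exact point and the boxes. -/
structure Nm where
  /-- the coarse precision -/
  q : ℝ
  /-- the fine precision -/
  n : ℝ
  /-- the precision of the closed slope -/
  rot : ℝ → ℝ
  /-- the rate of the direction -/
  act : ℝ → ℝ

/-- Admissible numbers; `δ`: the activity. -/
structure Nm.Ok (c : Nm) (δ : ℝ) : Prop where
  q0 : 0 ≤ c.q
  qn : c.q ≤ c.n
  n1 : c.n ≤ 1
  r0 : ∀ w, 0 ≤ c.rot w
  r1 : ∀ w, c.rot w ≤ c.n - c.q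
  rm : Monotone c.rot
  a0 : c.act 0 = 0
  am : Monotone c.act
  al : ∀ y y', y ≤ y' → c.act y' - c.act y ≤ y' - y
  ad : ∀ y, 0 ≤ y → y ≤ 1 - c.q → δ * y ≤ c.act y

/-! ### One family -/

/-- The window `i / n` of the mesh. -/
noncomputable def msh (J n i : ℕ) : ℕ := ⌊(i : ℝ) / n * J⌋₊

/-- **The times**: except for windows of total weight `η J`, two times of a window, given the line,
are at a distance at least `2 ^ (-K)` times the length of the window, on all events. -/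
def Tim (F : Fam 2 J) (K : ℕ) (η h : ℝ) : Prop :=
  ∃ D : ℕ → ℝ, (∀ v, 0 ≤ D v) ∧ (∀ v, D v ≤ 1) ∧ ∑ v ∈ range J, D v ≤ η * J ∧
    ∀ E : F.Ω → Prop, h ≤ Pe F.p E → ∀ a b : ℕ, a ≤ b → b + K ≤ J →
      ∑ v ∈ Ico a b, Pe (dbl (Pool.Agent.H49.Ent.cond F.p E True) (slam F v))
          (fun x => |(F.T x.1 : ℝ) - F.T x.2| < 2 ^ (J - (v + K))) ≤
        (∑ v ∈ Ico a b, D v) / Pe F.p E + η * ((b : ℝ) - a) + h * J

/-- **One level of the class in one family.** -/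
structure Lvl (F : Fam 2 J) (c : Nm) (n : ℕ) (h : ℝ) (B : ℕ → Bx F) (k : ℕ) : Prop where
  hq : |((B k).q : ℝ) - c.q * J| ≤ h * J
  hn : |((B k).n : ℝ) - c.n * J| ≤ h * J
  /-- the slope is closed up to the precision `rot` -/
  cl : ∀ i ≤ n, Clo F (fun _ => True) (B k).a (msh J n i) ⌊(c.rot (i / n) - h) * J⌋₊
  /-- it is not closed to a higher precision, on any event -/
  th : ∀ i ≤ n, c.rot (i / n) < c.n - c.q → ∀ E : F.Ω → Prop, h ≤ Pe F.p E →
    Pe (dbl (Pool.Agent.H49.Ent.cond F.p E True) (slam F (msh J n i)))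
      (fun v => |(B k).a v.1 - (B k).a v.2| ≤ 1 / 2 ^ ⌈(c.rot (i / n) + h) * J⌉₊) ≤ h
  /-- the direction is active, on all events -/
  ac : ∀ i j, i ≤ j → j ≤ n → (B k).q + msh J n j ≤ J → ∀ E : F.Ω → Prop, h ≤ Pe F.p E →
    (c.act (j / n) - c.act (i / n) - h) * J * Real.log 2 ≤
      CH (Pool.Agent.H49.Ent.cond F.p E True)
        (fun ω => ⌊(2 : ℝ) ^ ((B k).q + msh J n j) * F.d ω (B k).i0⌋)
        (fun ω => (ptk B k ω, ⌊(2 : ℝ) ^ ((B k).q + msh J n i) * F.d ω (B k).i0⌋))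
  /-- the zoomed directions at the exact point are not near a line, on any event -/
  ex : c.n < 1 → ∀ E : F.Ω → Prop, h ≤ Pe F.p E →
    ¬ NearLine F (B k) E (ptk B k) ⌈h * J⌉₊

/-- **Everything the class says about one family.** -/
structure Dcr (F : Fam 2 J) (K : ℕ) (η : ℝ) (M : ℕ) (g : ℝ) (c : ℕ → Nm) (n : ℕ) (h : ℝ)
    (B : ℕ → Bx F) (N : ℕ → ℝ) : Prop where
  tr : F.Tr
  tim : Tim F K η h
  chn : Chn F (fun _ => True) M ⌊g * J⌋₊ B N
  lvl : ∀ k < M, Lvl F (c k) n h B k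

/-- **The theorem for one family.** Order of the constants: the loss `ε`, the activity `δ`; the
portion `η` of the dead windows; `K`; the number `M` of the levels; the gap `g` and the numbers of
the class; the mesh `n`, the error `h`; `J`. -/
def FAMStmt (b : ℝ) : Prop :=
  ∀ ε > 0, ∀ δ > 0, ∃ η > 0, ∀ K : ℕ, ∃ M : ℕ, 1 ≤ M ∧ ∀ g > 0, ∀ c : ℕ → Nm,
    (∀ k < M, (c k).Ok δ) → ∃ n : ℕ, 1 ≤ n ∧ ∃ h > 0, ∃ J₀ : ℕ, ∀ J ≥ J₀, ∀ (F : Fam 2 J)
    (B : ℕ → Bx F) (N : ℕ → ℝ), Dcr F K η M g c n h B N → ∀ pr : ℝ, (∀ k < M, N k ≤ pr) →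
      ∃ L : Lbl F b, L.cost ≤ F.Vf + ε * J + pr

/-! ### The parts of the proof -/

/-- A closed frame of a box, at the window `w`, with the precision `l`. -/
structure Cld (F : Fam 2 J) (B : Bx F) (w l : ℕ) (z : F.Ω → Fin 2 → ℝ) : Prop where
  det : Det F.p (slam F w) z
  grid : ∀ ω i, ∃ k : ℤ, z ω i = k / 2 ^ l
  z0 : ∀ ω, z ω B.i0 = 0
  le1 : ∀ ω i, |z ω i| ≤ 1
  near : ∀ ω, 0 < F.p ω → |B.a ω - z ω (oth B.i0)| ≤ 4 / 2 ^ l

/-- **(ALPHA)** Below the saturation of the frame, one level: from a window `w₁ ≤ ε J` to a window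
`we` which is beyond the target window `msh J n t` or at the top, the information grows like the
volume. The target is the first window of the mesh with `n - q - x ≤ rot`. -/
def ALPHAStmt : Prop :=
  ∀ ε > 0, ∀ δ > 0, ∃ η > 0, ∀ K : ℕ, ∀ c : Nm, c.Ok δ → ∀ x > 0, ∃ n₀ : ℕ, 1 ≤ n₀ ∧
    ∀ n : ℕ, 1 ≤ n → n₀ ∣ n → ∃ h > 0, ∃ J₀ : ℕ, ∀ J ≥ J₀, ∀ (F : Fam 2 J) (B : ℕ → Bx F)
    (k : ℕ), F.Tr → Tim F K η h → (B k).Ok (fun _ => True) → Lvl F c n h B k →
    ∀ t : ℕ, t ≤ n + 1 → (∀ i < t, c.rot (i / n) < c.n - c.q - x) →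
      (t ≤ n → c.n - c.q - x ≤ c.rot (t / n)) →
    ∃ (q w₁ we l₁ le : ℕ) (z₁ ze : F.Ω → Fin 2 → ℝ), (B k).q ≤ q ∧
      (q : ℝ) ≤ (B k).q + x * J ∧ q + le ≤ (B k).n ∧ l₁ ≤ le ∧ (w₁ : ℝ) ≤ ε * J ∧ w₁ ≤ we ∧
      q + we ≤ J ∧ Cld F (B k) w₁ l₁ z₁ ∧ Cld F (B k) we le ze ∧
      ((t ≤ n ∧ msh J n t ≤ we ∧ (c.n - c.q - 2 * x) * J ≤ le) ∨ (J : ℝ) ≤ q + we + ε * J) ∧
      cNf F w₁ q l₁ (B k).i0 z₁ + (cVol J we q le - cVol J w₁ q l₁) - ε * J ≤
        cNf F we q le (B k).i0 ze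

/-- The cumulative context of the level `k` at the window `w`: the contexts of all levels `j ≤ k`
which are closed at `w`; `wk j`: the window where the level `j` is closed. -/
noncomputable def cum (F : Fam 2 J) (B : ℕ → Bx F) (wk l : ℕ → ℕ) (z : ℕ → F.Ω → Fin 2 → ℝ)
    (k w : ℕ) (ω : F.Ω) (j : ℕ) :=
  if j ≤ k ∧ wk j ≤ w then some (F.ctt w (B j).q (l j) (B j).i0 (z j) ω) else none

/-- **(BETA)** Above the saturation of the frame, to the top: for one of the `M` levels the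
information in the cumulative contexts grows like the volume, from all windows. -/
def BETAStmt : Prop :=
  ∀ ε > 0, ∀ δ > 0, ∃ η > 0, ∀ K : ℕ, ∃ M : ℕ, 1 ≤ M ∧ ∀ g > 0, ∀ c : ℕ → Nm,
    (∀ k < M, (c k).Ok δ) → ∃ x₁ > 0, ∀ x, 0 < x → x ≤ x₁ → ∃ n₀ : ℕ, 1 ≤ n₀ ∧
    ∀ n : ℕ, 1 ≤ n → n₀ ∣ n → ∃ h > 0, ∃ J₀ : ℕ, ∀ J ≥ J₀, ∀ (F : Fam 2 J) (B : ℕ → Bx F)
    (N : ℕ → ℝ), Dcr F K η M g c n h B N → ∀ (wk l : ℕ → ℕ) (z : ℕ → F.Ω → Fin 2 → ℝ),
    (∀ k < M, wk k ≤ J → Cld F (B k) (wk k) (l k) (z k) ∧ (B k).q + l k ≤ (B k).n ∧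
      ((c k).n - (c k).q - 2 * x) * J ≤ l k) →
    ∃ k < M, ∀ w, wk k ≤ w → (B k).q + w ≤ J →
      nfo F w (cum F B wk l z k w) + (2 * (J * Real.log 2) - cVol J w (B k).q (l k)) - ε * J ≤
        nfo F (J - (B k).q) (cum F B wk l z k (J - (B k).q))

end Pool.PC
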