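import Pool.Agent.H15.PC.Cmp

/-!
# Plan C: the theorem for one family, from its two parts

`fam_of : 1 ≤ b → ALPHAStmt → BETAStmt → FAMStmt b`.
-/

set_option autoImplicit false

namespace Pool.PC

open Finset Real
open Pool.Agent.H49.Ent Pool.Agent.H32.Dense Pool.STK Pool.KA Pool.KSAT Pool.K2S Pool.LK

variable {J : ℕ} {F : Fam 2 J}

/-! ### Monotonicity in the errors -/

theorem Tim.mono {K : ℕ} {η h η' h' : ℝ} (H : Tim F K η h) (hη : η ≤ η') (hh : h ≤ h') :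
    Tim F K η' h' := by
  obtain ⟨D, h0, h1, h2, h3⟩ := H
  have hJ : (0 : ℝ) ≤ J := Nat.cast_nonneg J
  refine ⟨D, h0, h1, h2.trans (mul_le_mul_of_nonneg_right hη hJ), ?_⟩
  intro E hE a b hab hb
  refine (h3 E (hh.trans hE) a b hab hb).trans ?_
  have h4 : (0 : ℝ) ≤ (b : ℝ) - a := by
    have : (a : ℝ) ≤ b := by exact_mod_cast hab
    linarith only [this]
  have h5 := mul_le_mul_of_nonneg_right hη h4
  have h6 := mul_le_mul_of_nonneg_right hh hJ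
  linarith only [h5, h6]

theorem Clo.mono15 {A : F.Ω → Prop} {a : F.Ω → ℝ} {w r r' : ℕ} (h : Clo F A a w r) (hr : r' ≤ r) :
    Clo F A a w r' := fun ω ω' hω hω' e => (h ω ω' hω hω' e).trans
  (div_le_div_of_nonneg_left (by norm_num) (by positivity)
    (pow_le_pow_right₀ (by norm_num) hr))

theorem NearLine.mono15 {B : Bx F} {A : F.Ω → Prop} {α : Type} {P : F.Ω → α} {h h' : ℕ}
    (H : NearLine F B A P h) (hh : h' ≤ h) : NearLine F B A P h' := by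
  obtain ⟨lam, mu, nu, h1, h2⟩ := H
  refine ⟨lam, mu, nu, h1, fun ω hω => ?_⟩
  obtain ⟨a1, a2, a3, a4⟩ := h2 ω hω
  exact ⟨a1, a2, a3, a4.trans (div_le_div_of_nonneg_left (by norm_num) (by positivity)
    (pow_le_pow_right₀ (by norm_num) hh))⟩

theorem Lvl.mono {c : Nm} {n : ℕ} {h h' : ℝ} {B : ℕ → Bx F} {k : ℕ} (H : Lvl F c n h B k)
    (hh : h ≤ h') : Lvl F c n h' B k := by
  have hJ : (0 : ℝ) ≤ J := Nat.cast_nonneg J
  have hl2 : 0 ≤ Real.log 2 := Real.log_nonneg (by norm_num)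
  have hhJ := mul_le_mul_of_nonneg_right hh hJ
  refine ⟨H.hq.trans hhJ, H.hn.trans hhJ, ?_, ?_, ?_, ?_⟩
  · intro i hi
    refine Clo.mono15 (H.cl i hi) (Nat.floor_mono ?_)
    nlinarith only [hhJ]
  · intro i hi hr E hE
    refine le_trans ?_ ((H.th i hi hr E (hh.trans hE)).trans hh)
    refine Jmp.Pe_le (dbl_nonneg (cond_nonneg F.isLaw.nonneg _ _)) ?_
    intro v _ hv
    refine le_trans hv (div_le_div_of_nonneg_left (by norm_num) (by positivity)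
      (pow_le_pow_right₀ (by norm_num) (Nat.ceil_mono ?_)))
    nlinarith only [hhJ]
  · intro i j hij hj hJ' E hE
    refine le_trans ?_ (H.ac i j hij hj hJ' E (hh.trans hE))
    refine mul_le_mul_of_nonneg_right ?_ hl2
    nlinarith only [hhJ]
  · intro hn E hE hNL
    refine H.ex hn E (hh.trans hE) (hNL.mono15 (Nat.ceil_mono hhJ))

theorem Dcr.mono {K : ℕ} {η η' : ℝ} {M : ℕ} {g : ℝ} {c : ℕ → Nm} {n : ℕ} {h h' : ℝ}
    {B : ℕ → Bx F} {N : ℕ → ℝ} (H : Dcr F K η M g c n h B N) (hη : η ≤ η') (hh : h ≤ h') :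
    Dcr F K η' M g c n h' B N :=
  ⟨H.tr, H.tim.mono hη hh, H.chn, fun k hk => (H.lvl k hk).mono hh⟩

/-! ### Auxiliary numbers -/

theorem exists_le_all (f : ℕ → ℝ) (hf : ∀ k, 0 < f k) (M : ℕ) : ∃ h > 0, ∀ k < M, h ≤ f k := by
  induction M with
  | zero => exact ⟨1, one_pos, fun k hk => absurd hk (Nat.not_lt_zero k)⟩
  | succ M ih =>
    obtain ⟨h, h0, h1⟩ := ih
    refine ⟨min h (f M), lt_min h0 (hf M), fun k hk => ?_⟩
    rcases Nat.lt_succ_iff_lt_or_eq.mp hk with h2 | rfl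
    · exact (min_le_left _ _).trans (h1 k h2)
    · exact min_le_right _ _

theorem exists_ge_all (f : ℕ → ℕ) (M : ℕ) : ∃ N, ∀ k < M, f k ≤ N :=
  ⟨∑ k ∈ range M, f k, fun _ hk => Finset.single_le_sum (f := f) (fun _ _ => Nat.zero_le _)
    (mem_range.mpr hk)⟩

/-- The first window of the mesh where the frame is closed up to `x`. -/
theorem first_win (c : Nm) (x : ℝ) (n : ℕ) : ∃ t : ℕ, t ≤ n + 1 ∧
    (∀ i < t, c.rot ((i : ℝ) / n) < c.n - c.q - x) ∧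
    (t ≤ n → c.n - c.q - x ≤ c.rot ((t : ℝ) / n)) := by
  classical
  by_cases H : ∃ i : ℕ, i ≤ n ∧ c.n - c.q - x ≤ c.rot ((i : ℝ) / n)
  · refine ⟨Nat.find H, (Nat.find_spec H).1.trans (Nat.le_succ n), fun i hi => ?_,
      fun _ => (Nat.find_spec H).2⟩
    have h1 := Nat.find_min H hi
    by_contra h2
    exact h1 ⟨hi.le.trans (Nat.find_spec H).1, not_lt.mp h2⟩
  · refine ⟨n + 1, le_rfl, fun i hi => ?_, fun h => absurd h (by omega)⟩
    by_contra h2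
    exact H ⟨i, Nat.lt_succ_iff.mp hi, not_lt.mp h2⟩

theorem msh_le15 {n i : ℕ} (hn : 1 ≤ n) (hi : i ≤ n) : msh J n i ≤ J := by
  have hn' : (0 : ℝ) < n := by exact_mod_cast hn
  have h1 : (i : ℝ) / n ≤ 1 := by
    rw [div_le_one hn']
    exact_mod_cast hi
  have hJ : (0 : ℝ) ≤ J := Nat.cast_nonneg J
  refine Nat.floor_le_of_le ?_
  nlinarith only [h1]

/-- The levels with their closed frames. -/
theorem lvs_of {B : ℕ → Bx F} {M n : ℕ} {h x : ℝ} {c : ℕ → Nm} (hh : 0 ≤ h)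
    (hx : 4 * h ≤ x) (hxJ : 2 ≤ x * J) (hB : ∀ k < M, (B k).Ok (fun _ => True))
    (hL : ∀ k < M, Lvl F (c k) n h B k) (t : ℕ → ℕ)
    (ht : ∀ k < M, t k ≤ n → (c k).n - (c k).q - x ≤ (c k).rot ((t k : ℝ) / n)) :
    ∃ (wk l : ℕ → ℕ) (z : ℕ → F.Ω → Fin 2 → ℝ), Lvs F B M wk l z ∧
      (∀ k < M, wk k ≤ J → ((c k).n - (c k).q - 2 * x) * J ≤ l k) ∧
      (∀ k < M, t k ≤ n → wk k = msh J n (t k)) ∧
      (∀ k < M, (l k : ℝ) ≤ max 0 (((c k).n - (c k).q - x) * J)) := by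
  classical
  have hJ : (0 : ℝ) ≤ J := Nat.cast_nonneg J
  obtain ⟨l, hl⟩ : ∃ l : ℕ → ℕ, l = fun k => ⌊((c k).n - (c k).q - x - 2 * h) * J⌋₊ :=
    ⟨_, rfl⟩
  have key : ∀ k, ∃ z : F.Ω → Fin 2 → ℝ, k < M → t k ≤ n →
      Cld F (B k) (msh J n (t k)) (l k) z := by
    intro k
    by_cases h1 : k < M ∧ t k ≤ n
    · obtain ⟨hk, htk⟩ := h1
      obtain ⟨z, hz⟩ := cld_of_clo (B := B k) (l := l k) (hB k hk) (by
        rw [hl]
        refine Nat.floor_mono (mul_le_mul_of_nonneg_right ?_ hJ)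
        show (c k).n - (c k).q - x - 2 * h ≤ (c k).rot ((t k : ℝ) / n) - h
        have := ht k hk htk
        linarith only [hh, this]) ((hL k hk).cl (t k) htk)
      exact ⟨z, fun _ _ => hz⟩
    · exact ⟨fun _ _ => 0, fun a b => absurd ⟨a, b⟩ h1⟩
  choose z hz using key
  have hwk : ∀ k, (if t k ≤ n then msh J n (t k) else J + 1) ≤ J → t k ≤ n := by
    intro k h1
    by_contra h2
    rw [if_neg h2] at h1
    omega
  refine ⟨fun k => if t k ≤ n then msh J n (t k) else J + 1, l, z, ⟨?_, ?_⟩, ?_, ?_, ?_⟩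
  · intro k hk h1
    have h2 := hwk k h1
    rw [if_pos h2]
    exact hz k hk h2
  · intro k hk _
    have h3 := (hL k hk).hq
    have h4 := (hL k hk).hn
    rw [abs_le] at h3 h4
    rcases le_or_gt 0 (((c k).n - (c k).q - x - 2 * h) * J) with h5 | h5
    · have h6 : ((l k : ℕ) : ℝ) ≤ ((c k).n - (c k).q - x - 2 * h) * J := by
        rw [hl]
        exact Nat.floor_le h5
      have h7 : (((B k).q + l k : ℕ) : ℝ) ≤ ((B k).n : ℕ) := by
        push_cast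
        nlinarith only [hxJ, h3, h4, h6]
      exact_mod_cast h7
    · have h6 : l k = 0 := by
        rw [hl]
        exact Nat.floor_of_nonpos h5.le
      rw [h6]
      exact (hB k hk).le
  · intro k hk _
    have h1 : ((c k).n - (c k).q - x - 2 * h) * J < (l k : ℝ) + 1 := by
      rw [hl]
      exact Nat.lt_floor_add_one _
    nlinarith only [hxJ, h1, hx]
  · intro k hk h1
    dsimp only
    rw [if_pos h1]
  · intro k hk
    rw [hl]
    rcases le_or_gt 0 (((c k).n - (c k).q - x - 2 * h) * J) with h5 | h5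
    · refine le_trans (Nat.floor_le h5) (le_max_of_le_right ?_)
      nlinarith only [hh]
    · dsimp only
      rw [Nat.floor_of_nonpos h5.le]
      simp

/-! ### The composition -/

section comp

variable {M n g : ℕ} {h x e : ℝ} {c : Nm} {B : ℕ → Bx F} {N : ℕ → ℝ} {wk l : ℕ → ℕ}
  {z : ℕ → F.Ω → Fin 2 → ℝ} {k : ℕ}

theorem cVol_le' (w q l q' l' : ℕ) (r : ℝ) (hq : q ≤ q') (h : (q : ℝ) + l ≤ q' + l' + r)
    (hr : 0 ≤ r) : cVol J w q l ≤ cVol J w q' l' + r * Real.log 2 := by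
  have hl2 : 0 ≤ Real.log 2 := Real.log_nonneg (by norm_num)
  unfold cVol
  rw [← add_mul]
  refine mul_le_mul_of_nonneg_right ?_ hl2
  have h1 : ((min (q + w) J : ℕ) : ℝ) ≤ ((min (q' + w) J : ℕ) : ℝ) := by
    exact_mod_cast min_le_min_right _ (by omega)
  have h2 : ((min (q + l + w) J : ℕ) : ℝ) ≤ ((min (q' + l' + w) J : ℕ) : ℝ) + r := by
    rw [Nat.cast_min, Nat.cast_min]
    rcases le_total ((q' + l' + w : ℕ) : ℝ) J with h3 | h3
    · rw [min_eq_left h3]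
      refine (min_le_left _ _).trans ?_
      push_cast
      linarith only [h]
    · rw [min_eq_right h3]
      refine (min_le_right _ _).trans ?_
      linarith only [hr]
  linarith only [h1, h2]

/-- **Case 2**: the end from a context below the saturation. -/
theorem fam_case2 (hC : Chn F (fun _ => True) M g B N) (hk : k < M) {w₁ q l₁ we le : ℕ}
    {z₁ ze : F.Ω → Fin 2 → ℝ} {b : ℝ} (hb : 1 ≤ b) (he : 0 ≤ e)
    (hq : (B k).q ≤ q) (hqx : (q : ℝ) ≤ (B k).q + x * J) (hle : q + le ≤ (B k).n)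
    (hll : l₁ ≤ le) (hw₁ : (w₁ : ℝ) ≤ e * J) (hww : w₁ ≤ we) (hqw : q + we ≤ J)
    (hz₁ : Cld F (B k) w₁ l₁ z₁) (hze : Cld F (B k) we le ze) (hend : (J : ℝ) ≤ q + we + e * J)
    (hA : cNf F w₁ q l₁ (B k).i0 z₁ + (cVol J we q le - cVol J w₁ q l₁) - e * J ≤
        cNf F we q le (B k).i0 ze) :
    ∃ L : Lbl F b, L.cost ≤ F.Vf + N k + (x + 6 * e) * J +
      (cpt + Real.log 8 + 2 * (2 * Real.log (4 * 2 + 3))) := by
  have hl2 : 0 ≤ Real.log 2 := Real.log_nonneg (by norm_num)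
  have hl2' : Real.log 2 ≤ 1 := by
    have := Real.log_two_lt_d9
    linarith only [this]
  have hJ : (0 : ℝ) ≤ J := Nat.cast_nonneg J
  have hBn := (hC.ok k hk).leJ
  obtain ⟨L, hL⟩ := start15 (b := b) hb hz₁ (by omega) (by omega : q + l₁ ≤ J)
  refine ⟨L, hL.trans ?_⟩
  have h1 := end_ctt hC hk hze (by omega) hq hle
  have h2 : 2 * ((J : ℝ) * Real.log 2) - 2 * (e * J) ≤ cVol J we q le := by
    unfold cVol
    rw [min_eq_left hqw]
    have a1 : ((q + we : ℕ) : ℝ) ≤ ((min (q + le + we) J : ℕ) : ℝ) := by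
      exact_mod_cast le_min (by omega) hqw
    push_cast at a1 ⊢
    have a2 : 2 * ((J : ℝ) * Real.log 2) ≤
        2 * (((q : ℝ) + we) * Real.log 2) + 2 * (e * J * Real.log 2) := by nlinarith only [hend, hl2]
    have a3 : e * J * Real.log 2 ≤ e * J := by
      have : 0 ≤ e * J := by positivity
      nlinarith only [hl2', hw₁]
    nlinarith only [a2, a3, hl2, a1]
  have h3 : ((q : ℝ) - (B k).q) * Real.log 2 ≤ x * J := by
    have a1 : (0 : ℝ) ≤ (q : ℝ) - (B k).q := by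
      have : ((B k).q : ℝ) ≤ q := by exact_mod_cast hq
      linarith only [this]
    nlinarith only [hqx, hl2', a1]
  have h4 : 3 * ((w₁ : ℝ) * Real.log 2) ≤ 3 * (e * J) := by
    have a1 : (0 : ℝ) ≤ w₁ := Nat.cast_nonneg _
    nlinarith only [hw₁, hl2']
  nlinarith only [hA, h1, h2, h3, h4]

set_option maxHeartbeats 2000000 in
/-- **Case 1**: the switch to the cumulative contexts, to the top. -/
theorem fam_case1 (hC : Chn F (fun _ => True) M g B N) (hLv : Lvs F B M wk l z) (hk : k < M)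
    (hL : Lvl F c n h B k)
    {w₁ q l₁ we le : ℕ} {z₁ ze : F.Ω → Fin 2 → ℝ} {b : ℝ} (hb : 1 ≤ b) (he : 0 ≤ e)
    (hx : 0 ≤ x) (hhx : 4 * h ≤ x)
    (hq : (B k).q ≤ q) (hqx : (q : ℝ) ≤ (B k).q + x * J) (hle : q + le ≤ (B k).n)
    (hll : l₁ ≤ le) (hw₁ : (w₁ : ℝ) ≤ e * J) (hww : w₁ ≤ we) (hqw : q + we ≤ J)
    (hz₁ : Cld F (B k) w₁ l₁ z₁) (hze : Cld F (B k) we le ze)
    (hwk : wk k ≤ we) (hle2 : (c.n - c.q - 2 * x) * J ≤ le)
    (hlk : (c.n - c.q - 2 * x) * J ≤ l k) (hlk2 : (l k : ℝ) ≤ max 0 ((c.n - c.q - x) * J))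
    (hA : cNf F w₁ q l₁ (B k).i0 z₁ + (cVol J we q le - cVol J w₁ q l₁) - e * J ≤
        cNf F we q le (B k).i0 ze)
    (hBE : ∀ w, wk k ≤ w → (B k).q + w ≤ J →
      nfo F w (cum F B wk l z k w) + (2 * (J * Real.log 2) - cVol J w (B k).q (l k)) - e * J ≤
        nfo F (J - (B k).q) (cum F B wk l z k (J - (B k).q))) :
    ∃ L : Lbl F b, L.cost ≤ F.Vf + N k + (32 * x + 6 * e) * J +
      (((k : ℝ) + 1) * cpt + 2 * (2 * Real.log (4 * 2 + 3)) + 10 + 6 * Real.log 67) := by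
  have hl2 : 0 ≤ Real.log 2 := Real.log_nonneg (by norm_num)
  have hl2' : Real.log 2 ≤ 1 := by
    have := Real.log_two_lt_d9
    linarith only [this]
  have hJ : (0 : ℝ) ≤ J := Nat.cast_nonneg J
  have hBn := (hC.ok k hk).leJ
  have hq1 := hL.hq
  have hn1 := hL.hn
  rw [abs_le] at hq1 hn1
  have hxJ : 0 ≤ x * J := by positivity
  have hhJ : 4 * (h * J) ≤ x * J := by nlinarith only [hhx]
  obtain ⟨s, hs⟩ : ∃ s, s = ⌈3 * x * J⌉₊ := ⟨_, rfl⟩
  have hs1 : 3 * x * J ≤ s := by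
    rw [hs]
    exact Nat.le_ceil _
  have hs2 : (s : ℝ) ≤ 3 * x * J + 1 := by
    rw [hs]
    exact (Nat.ceil_lt_add_one (by positivity)).le
  have hleR : (q : ℝ) + le ≤ (B k).n := by exact_mod_cast hle
  have hqR : ((B k).q : ℝ) ≤ q := by exact_mod_cast hq
  have hJ' : (c.n - c.q - 2 * x) * J = c.n * J - c.q * J - 2 * (x * J) := by ring
  rw [hJ'] at hle2 hlk
  have hqw' : (B k).q + we ≤ J := by omega
  obtain ⟨L, hL'⟩ := start15 (b := b) hb hz₁ (by omega) (by omega : q + l₁ ≤ J)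
  refine ⟨L, hL'.trans ?_⟩
  have h1 := switch15 (F := F) (q := q) (s := s) hLv hk hwk (by omega) hze (by
      have : (q : ℝ) ≤ ((B k).q + s : ℕ) := by
        push_cast
        linarith only [hqx, hs1]
      exact_mod_cast this) (by
      have : ((q + le : ℕ) : ℝ) ≤ ((B k).q + l k + s : ℕ) := by
        push_cast
        linarith only [hlk, hq1, hn1, hhJ, hs1, hleR]
      exact_mod_cast this) (by
      have : (le : ℝ) ≤ (l k + s : ℕ) := by
        push_cast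
        linarith only [hlk, hq1, hn1, hhJ, hs1, hleR, hqR]
      exact_mod_cast this) hqw'
  have h2 := hBE we hwk hqw'
  have h3 := end_cum hC hLv (w := J - (B k).q) hk (by omega) (by omega)
  have h4 : cVol J we (B k).q (l k) ≤ cVol J we q le + x * J * Real.log 2 := by
    refine cVol_le' _ _ _ _ _ _ hq ?_ hxJ
    rcases le_total 0 ((c.n - c.q - x) * J) with h5 | h5
    · rw [max_eq_right h5] at hlk2
      have e1 : (c.n - c.q - x) * J = c.n * J - c.q * J - x * J := by ring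
      rw [e1] at hlk2
      linarith only [hle2, hlk2, hqR]
    · rw [max_eq_left h5] at hlk2
      have a1 : (0 : ℝ) ≤ le := Nat.cast_nonneg _
      linarith only [hlk2, hxJ, hqR]
  have h5 : x * J * Real.log 2 ≤ x * J := by nlinarith only [hl2', hxJ]
  have h6 : 10 * (s * Real.log 2) ≤ 30 * (x * J) + 10 := by
    have : (s : ℝ) * Real.log 2 ≤ s := by
      have a1 : (0 : ℝ) ≤ s := Nat.cast_nonneg _
      nlinarith only [hl2']
    linarith only [hs2, this]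
  have h7 : 3 * ((w₁ : ℝ) * Real.log 2) ≤ 3 * (e * J) := by
    have a1 : (0 : ℝ) ≤ w₁ := Nat.cast_nonneg _
    nlinarith only [hw₁, hl2']
  have h8 : 0 ≤ e * J := by positivity
  linarith only [hw₁, hA, hxJ, h1, h2, h3, h4, h5, h6, h7]

end comp

/-- **The theorem for one family, from its two parts.** -/
theorem fam_of {b : ℝ} (hb : 1 ≤ b) (hA : ALPHAStmt) (hB : BETAStmt) : FAMStmt b := by
  intro ε hε δ hδ
  obtain ⟨e, he⟩ : ∃ e, e = ε / 64 := ⟨_, rfl⟩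
  have he0 : 0 < e := by rw [he]; positivity
  obtain ⟨ηA, hηA, hA⟩ := hA e he0 δ hδ
  obtain ⟨ηB, hηB, hB⟩ := hB e he0 δ hδ
  refine ⟨min ηA ηB, lt_min hηA hηB, fun K => ?_⟩
  obtain ⟨M, hM, hB⟩ := hB K
  refine ⟨M, hM, fun g hg c hc => ?_⟩
  obtain ⟨x₁, hx₁, hB⟩ := hB g hg c hc
  obtain ⟨x, hx⟩ : ∃ x, x = min x₁ e := ⟨_, rfl⟩
  have hx0 : 0 < x := by rw [hx]; exact lt_min hx₁ he0
  have hxe : x ≤ e := by rw [hx]; exact min_le_right _ _
  obtain ⟨nB, hnB, hB⟩ := hB x hx0 (by rw [hx]; exact min_le_left _ _)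
  have hA1 : ∀ k, ∃ n₀ : ℕ, 1 ≤ n₀ ∧ (k < M → ∀ n : ℕ, 1 ≤ n → n₀ ∣ n → ∃ h > 0, ∃ J₀ : ℕ,
      ∀ J ≥ J₀, ∀ (F : Fam 2 J) (B : ℕ → Bx F)
      (k' : ℕ), F.Tr → Tim F K ηA h → (B k').Ok (fun _ => True) → Lvl F (c k) n h B k' →
      ∀ t : ℕ, t ≤ n + 1 → (∀ i < t, (c k).rot (i / n) < (c k).n - (c k).q - x) →
        (t ≤ n → (c k).n - (c k).q - x ≤ (c k).rot (t / n)) →
      ∃ (q w₁ we l₁ le : ℕ) (z₁ ze : F.Ω → Fin 2 → ℝ), (B k').q ≤ q ∧
        (q : ℝ) ≤ (B k').q + x * J ∧ q + le ≤ (B k').n ∧ l₁ ≤ le ∧ (w₁ : ℝ) ≤ e * J ∧ w₁ ≤ we ∧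
        q + we ≤ J ∧ Cld F (B k') w₁ l₁ z₁ ∧ Cld F (B k') we le ze ∧
        ((t ≤ n ∧ msh J n t ≤ we ∧ ((c k).n - (c k).q - 2 * x) * J ≤ le) ∨
          (J : ℝ) ≤ q + we + e * J) ∧
        cNf F w₁ q l₁ (B k').i0 z₁ + (cVol J we q le - cVol J w₁ q l₁) - e * J ≤
          cNf F we q le (B k').i0 ze) := by
    intro k
    by_cases hk : k < M
    · obtain ⟨n₀, h1, h2⟩ := hA K (c k) (hc k hk) x hx0
      exact ⟨n₀, h1, fun _ => h2⟩
    · exact ⟨1, le_rfl, fun h => absurd h hk⟩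
  choose nA hnA hA2 using hA1
  obtain ⟨n, hn⟩ : ∃ n, n = (∏ k ∈ range M, nA k) * nB := ⟨_, rfl⟩
  have hn1 : 1 ≤ n := by
    rw [hn]
    exact Nat.mul_pos (Finset.prod_pos fun k _ => hnA k) hnB
  have hnA' : ∀ k < M, nA k ∣ n := fun k hk => by
    rw [hn]
    exact Dvd.dvd.mul_right (Finset.dvd_prod_of_mem _ (mem_range.mpr hk)) _
  have hnB' : nB ∣ n := by
    rw [hn]
    exact Dvd.intro_left _ rfl
  obtain ⟨hB0, hhB, JB, hB⟩ := hB n hn1 hnB'
  have hA3 : ∀ k, ∃ h : ℝ, 0 < h ∧ ∃ J₀ : ℕ, k < M →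
      ∀ J ≥ J₀, ∀ (F : Fam 2 J) (B : ℕ → Bx F)
      (k' : ℕ), F.Tr → Tim F K ηA h → (B k').Ok (fun _ => True) → Lvl F (c k) n h B k' →
      ∀ t : ℕ, t ≤ n + 1 → (∀ i < t, (c k).rot (i / n) < (c k).n - (c k).q - x) →
        (t ≤ n → (c k).n - (c k).q - x ≤ (c k).rot (t / n)) →
      ∃ (q w₁ we l₁ le : ℕ) (z₁ ze : F.Ω → Fin 2 → ℝ), (B k').q ≤ q ∧
        (q : ℝ) ≤ (B k').q + x * J ∧ q + le ≤ (B k').n ∧ l₁ ≤ le ∧ (w₁ : ℝ) ≤ e * J ∧ w₁ ≤ we ∧
        q + we ≤ J ∧ Cld F (B k') w₁ l₁ z₁ ∧ Cld F (B k') we le ze ∧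
        ((t ≤ n ∧ msh J n t ≤ we ∧ ((c k).n - (c k).q - 2 * x) * J ≤ le) ∨
          (J : ℝ) ≤ q + we + e * J) ∧
        cNf F w₁ q l₁ (B k').i0 z₁ + (cVol J we q le - cVol J w₁ q l₁) - e * J ≤
          cNf F we q le (B k').i0 ze := by
    intro k
    by_cases hk : k < M
    · obtain ⟨h, h1, J₀, h2⟩ := hA2 k hk n hn1 (hnA' k hk)
      exact ⟨h, h1, J₀, fun _ => h2⟩
    · exact ⟨1, one_pos, 0, fun h => absurd h hk⟩
  choose hA0 hhA JA hA4 using hA3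
  obtain ⟨h₁, hh₁, hle₁⟩ := exists_le_all hA0 hhA M
  obtain ⟨J₁, hJ₁⟩ := exists_ge_all JA M
  obtain ⟨h, hh⟩ : ∃ h, h = min (min hB0 h₁) (x / 4) := ⟨_, rfl⟩
  have hh0 : 0 < h := by
    rw [hh]
    exact lt_min (lt_min hhB hh₁) (by positivity)
  have hhB' : h ≤ hB0 := by
    rw [hh]
    exact (min_le_left _ _).trans (min_le_left _ _)
  have hhA' : ∀ k < M, h ≤ hA0 k := fun k hk => by
    rw [hh]
    exact ((min_le_left _ _).trans (min_le_right _ _)).trans (hle₁ k hk)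
  have hhx : 4 * h ≤ x := by
    have : h ≤ x / 4 := by
      rw [hh]
      exact min_le_right _ _
    linarith only [this]
  obtain ⟨C₀, hC₀⟩ : ∃ C₀ : ℝ, C₀ = ((M : ℝ) + 1) * cpt + 2 * (2 * Real.log (4 * 2 + 3)) + 10 +
      6 * Real.log 67 + Real.log 8 := ⟨_, rfl⟩
  refine ⟨n, hn1, h, hh0, max (max JB J₁) (max ⌈2 / x⌉₊ ⌈C₀ / e⌉₊), ?_⟩
  intro J hJ F B N hD pr hpr
  have hJB : JB ≤ J := ((le_max_left _ _).trans (le_max_left _ _)).trans hJ
  have hJA : J₁ ≤ J := ((le_max_right _ _).trans (le_max_left _ _)).trans hJ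
  have hJx : 2 ≤ x * J := by
    have h1 : ⌈2 / x⌉₊ ≤ J := ((le_max_left _ _).trans (le_max_right _ _)).trans hJ
    have h2 : 2 / x ≤ (J : ℝ) := (Nat.le_ceil _).trans (by exact_mod_cast h1)
    rw [div_le_iff₀ hx0] at h2
    linarith only [h2]
  have hJC : C₀ ≤ e * J := by
    have h1 : ⌈C₀ / e⌉₊ ≤ J := ((le_max_right _ _).trans (le_max_right _ _)).trans hJ
    have h2 : C₀ / e ≤ (J : ℝ) := (Nat.le_ceil _).trans (by exact_mod_cast h1)
    rw [div_le_iff₀ he0] at h2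
    linarith only [h2]
  have hJ0 : (0 : ℝ) ≤ J := Nat.cast_nonneg J
  -- the first windows
  choose t ht1 ht2 ht3 using fun k => first_win (c k) x n
  obtain ⟨wk, l, z, hLv, hlk, hwk, hlk2⟩ := lvs_of (F := F) (B := B) (M := M) hh0.le hhx hJx
    hD.chn.ok hD.lvl t (fun k _ => ht3 k)
  obtain ⟨k, hk, hBE⟩ := hB J hJB F B N (hD.mono (min_le_right _ _) hhB') wk l z
    (fun k hk h1 => ⟨hLv.cl k hk h1, hLv.ln k hk h1, hlk k hk h1⟩)
  obtain ⟨q, w₁, we, l₁, le, z₁, ze, a1, a2, a3, a4, a5, a6, a7, a8, a9, a10, a11⟩ :=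
    hA4 k hk J ((hJ₁ k hk).trans hJA) F B k hD.tr (hD.tim.mono (min_le_left _ _) (hhA' k hk))
      (hD.chn.ok k hk) ((hD.lvl k hk).mono (hhA' k hk)) (t k) (ht1 k) (ht2 k) (ht3 k)
  have hN := hpr k hk
  have hc1 := cpt_nonneg
  have hl8 : 0 ≤ Real.log 8 := Real.log_nonneg (by norm_num)
  have hl11 : 0 ≤ Real.log (4 * 2 + 3) := Real.log_nonneg (by norm_num)
  have hl67 : 0 ≤ Real.log 67 := Real.log_nonneg (by norm_num)
  have hkM : (k : ℝ) + 1 ≤ M := by exact_mod_cast hk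
  have hxJ : x * J ≤ e * J := mul_le_mul_of_nonneg_right hxe hJ0
  have hcM : ((k : ℝ) + 1) * cpt ≤ M * cpt := mul_le_mul_of_nonneg_right hkM hc1
  have hM0 : (0 : ℝ) ≤ M * cpt := by positivity
  have heJ : ε * J = 64 * (e * J) := by
    rw [he]
    ring
  have hC₀' : C₀ = M * cpt + cpt + 2 * (2 * Real.log (4 * 2 + 3)) + 10 +
      6 * Real.log 67 + Real.log 8 := by
    rw [hC₀]
    ring
  rw [hC₀'] at hJC
  have he1 : 0 ≤ e * J := by positivity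
  rcases a10 with ⟨b1, b2, b3⟩ | b1
  · have h1 := hwk k hk b1
    obtain ⟨L, hL⟩ := fam_case1 (b := b) (e := e) (x := x) (h := h) hD.chn hLv hk (hD.lvl k hk) hb
      he0.le hx0.le hhx a1 a2 a3 a4 a5 a6 a7 a8 a9 (h1.trans_le b2) b3
      (hlk k hk (h1.trans_le (msh_le15 hn1 b1))) (hlk2 k hk) a11 hBE
    refine ⟨L, hL.trans ?_⟩
    rw [heJ]
    linarith only [hJC, hN, hc1, hl8, hl11, hl67, hxJ, hcM, hM0]
  · obtain ⟨L, hL⟩ := fam_case2 (b := b) (e := e) (x := x) hD.chn hk hb he0.le a1 a2 a3 a4 a5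
      a6 a7 a8 a9 b1 a11
    refine ⟨L, hL.trans ?_⟩
    rw [heJ]
    linarith only [hJC, hN, hc1, hl8, hl11, hl67, hxJ, hM0]

end Pool.PC
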